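import Pool.Agent.T2h83.AM.Lin4

set_option autoImplicit false

/-! Systems of linear forms: all the forms but the last one prime. -/

namespace Pool.Agent.T2h83.AM

open Finset
open Pool.Agent.H373R2.T7 (lamz Vz pz mem_pz Vz_pos Vz_inv_small ev_L' ev_log')

lemma Vz_inv_tiny (E : ℕ) (η : ℝ) (hη : 0 < η) : ∃ N₀ : ℕ, ∀ N : ℕ, N₀ ≤ N → ∀ z : ℕ, 1 ≤ z → (z : ℝ) ≤ Real.log N ^ E →
    (Vz z)⁻¹ ≤ η * Real.log N := by
  obtain ⟨N₁, h1⟩ := Vz_inv_small (E + 1)
  obtain ⟨N₂, h2⟩ := ev_L' ((2 / η) ^ (E + 1) + 2 * N₁ / η + 2 / η + 1)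
  refine ⟨N₂, fun N hN z hz hzE => ?_⟩
  have c2 := h2 N hN
  obtain ⟨L, hLd⟩ : ∃ L, L = Real.log (N : ℝ) := ⟨_, rfl⟩
  rw [← hLd] at c2 hzE ⊢
  have p1 : 0 < (2 / η) ^ (E + 1) := by positivity
  have p2 : 0 ≤ 2 * (N₁ : ℝ) / η := by positivity
  have p3 : 0 < 2 / η := by positivity
  have hL1 : 1 ≤ L := by linarith
  have hL0 : 0 < L := by linarith
  obtain ⟨M, hM⟩ : ∃ M, M = ⌈Real.exp (η * L / 2)⌉₊ := ⟨_, rfl⟩
  have hMlo : Real.exp (η * L / 2) ≤ M := by rw [hM]; exact Nat.le_ceil _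
  have hMhi : (M : ℝ) ≤ Real.exp (η * L / 2) + 1 := by rw [hM]; exact (Nat.ceil_lt_add_one (Real.exp_pos _).le).le
  have hM0 : (0 : ℝ) < M := (Real.exp_pos _).trans_le hMlo
  have hlogM1 : η * L / 2 ≤ Real.log M := by rw [Real.le_log_iff_exp_le hM0]; exact hMlo
  have hη1 : 1 ≤ η * L / 2 := by
    have : 2 / η ≤ L := by linarith
    rw [div_le_iff₀ hη] at this
    linarith
  have hlogM2 : Real.log M ≤ η * L := by
    have e1 : (M : ℝ) ≤ Real.exp (η * L / 2 + 1) := by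
      refine hMhi.trans ?_
      rw [Real.exp_add]
      have e2 : 1 ≤ Real.exp (η * L / 2) := Real.one_le_exp (by linarith)
      have e3 : (2 : ℝ) ≤ Real.exp 1 := by
        have := Real.add_one_le_exp (1 : ℝ)
        linarith
      nlinarith
    calc Real.log M ≤ Real.log (Real.exp (η * L / 2 + 1)) := Real.log_le_log hM0 e1
      _ = η * L / 2 + 1 := Real.log_exp _
      _ ≤ η * L := by linarith
  have hMN : N₁ ≤ M := by
    have e1 : (N₁ : ℝ) ≤ η * L / 2 := by
      have : 2 * (N₁ : ℝ) / η ≤ L := by linarith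
      rw [div_le_iff₀ hη] at this
      linarith
    have e2 : (N₁ : ℝ) ≤ M := by
      have := Real.add_one_le_exp (η * L / 2)
      linarith
    exact_mod_cast e2
  refine (h1 M hMN z hz ?_).trans hlogM2
  calc (z : ℝ) ≤ L ^ E := hzE
    _ = 1 * L ^ E := (one_mul _).symm
    _ ≤ ((η / 2) ^ (E + 1) * L) * L ^ E := by
        apply mul_le_mul_of_nonneg_right _ (by positivity)
        have e1 : (2 / η) ^ (E + 1) ≤ L := by linarith
        have e2 : (η / 2) ^ (E + 1) * (2 / η) ^ (E + 1) = 1 := by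
          rw [← mul_pow]
          have : η / 2 * (2 / η) = 1 := by field_simp
          rw [this, one_pow]
        rw [← e2]
        exact mul_le_mul_of_nonneg_left e1 (by positivity)
    _ = (η * L / 2) ^ (E + 1) := by
        rw [show η * L / 2 = (η / 2) * L by ring, mul_pow, pow_succ L E]
        ring
    _ ≤ Real.log M ^ (E + 1) := pow_le_pow_left₀ (by positivity) hlogM1 _

/-- the number of bad primes -/
lemma card_badL_le (k C : ℕ) : ∃ N₀ : ℕ, ∀ N : ℕ, N₀ ≤ N → ∀ c h : Fin k → ℕ, (∀ i, c i + 2 ≤ C) →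
    (∀ i, h i ≤ 2 * N) → ((badL c h).card : ℝ) ≤ Real.log N ^ 2 := by
  obtain ⟨N₁, h1⟩ := ev_L' (((k : ℝ) + k * k) * (4 * (Real.log C + 1)) + 1)
  refine ⟨N₁ + 3, fun N hN c h hcC hh => ?_⟩
  have c1 := h1 N (by omega)
  have hN0 : (0 : ℝ) < N := by exact_mod_cast (by omega : 0 < N)
  rcases Nat.eq_zero_or_pos k with hk | hk
  · subst hk
    have : badL c h = ∅ := by
      unfold badL
      rw [univ_eq_empty, biUnion_empty, empty_union]
      ext x
      simp
    rw [this, card_empty, Nat.cast_zero]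
    positivity
  have hC2 : 2 ≤ C := by
    have := hcC ⟨0, hk⟩
    omega
  have hC2r : (2 : ℝ) ≤ C := by exact_mod_cast hC2
  have hlC : 0 ≤ Real.log C := Real.log_natCast_nonneg C
  have hbad := card_badL c h (C * (2 * N)) (fun i => (hh i).trans (Nat.le_mul_of_pos_left _ (by omega)))
    (fun i j => Nat.mul_le_mul (by have := hcC i; omega) (hh j))
  obtain ⟨L, hLd⟩ : ∃ L, L = Real.log (N : ℝ) := ⟨_, rfl⟩
  rw [← hLd] at c1 ⊢
  have p1 : 0 ≤ ((k : ℝ) + k * k) * (4 * (Real.log C + 1)) := by positivity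
  have hL1 : 1 ≤ L := by linarith
  have hL0 : 0 < L := by linarith
  have q1 : (Nat.log 2 (C * (2 * N)) : ℝ) ≤ 4 * (Real.log C + 1) * L := by
    have q2 : (Nat.log 2 (C * (2 * N)) : ℝ) ≤ Real.log ((C * (2 * N) : ℕ) : ℝ) / Real.log 2 := by
      have := Real.natLog_le_logb (C * (2 * N)) 2
      simpa [Real.logb] using this
    have q3 : Real.log ((C * (2 * N) : ℕ) : ℝ) = Real.log C + (Real.log 2 + L) := by
      push_cast
      rw [Real.log_mul (by linarith) (by positivity), Real.log_mul (by norm_num) hN0.ne', hLd]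
    rw [q3] at q2
    refine q2.trans ?_
    have q4 := Real.log_two_gt_d9
    have q5 := Real.log_two_lt_d9
    rw [div_le_iff₀ (by linarith)]
    have q6 : 4 * (Real.log C + 1) * L * (1 / 2) ≤ 4 * (Real.log C + 1) * L * Real.log 2 := by
      apply mul_le_mul_of_nonneg_left (by linarith) (by positivity)
    have q7 : Real.log C ≤ Real.log C * L := le_mul_of_one_le_right hlC hL1
    nlinarith
  have q9 : ((badL c h).card : ℝ) ≤ (k + k * k) * (Nat.log 2 (C * (2 * N)) : ℝ) := by exact_mod_cast hbad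
  calc ((badL c h).card : ℝ) ≤ (k + k * k) * (Nat.log 2 (C * (2 * N)) : ℝ) := q9
    _ ≤ (k + k * k) * (4 * (Real.log C + 1) * L) := mul_le_mul_of_nonneg_left q1 (by positivity)
    _ = ((k + k * k) * (4 * (Real.log C + 1))) * L := by ring
    _ ≤ L * L := mul_le_mul_of_nonneg_right (by linarith) hL0.le
    _ = L ^ 2 := by ring

/-- all the forms but the last one -/
abbrev ini {k : ℕ} (c : Fin (k + 1) → ℕ) : Fin k → ℕ := fun i => c i.castSucc

/-- the number of the primes `p ≤ N` for which all `c i p + h i` but the last one are primes and the last one is not -/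
def cntX {k : ℕ} (c h : Fin (k + 1) → ℕ) (N : ℕ) : ℕ :=
  ((Icc 1 N).filter (fun p : ℕ => p.Prime ∧ (∀ i : Fin k, (c i.castSucc * p + h i.castSucc).Prime) ∧
    ¬ (c (Fin.last k) * p + h (Fin.last k)).Prime)).card

lemma cntX_eq {k : ℕ} (c h : Fin (k + 1) → ℕ) (N : ℕ) : cntX c h N + cntL c h N = cntL (ini c) (ini h) N := by
  unfold cntX cntL
  rw [← card_filter_add_card_filter_not (s := (Icc 1 N).filter (fun p : ℕ => p.Prime ∧ ∀ i, (ini c i * p + ini h i).Prime))
    (fun p => ¬ (c (Fin.last k) * p + h (Fin.last k)).Prime)]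
  congr 1
  · congr 1
    ext p
    rw [mem_filter, mem_filter, mem_filter]
    constructor
    · rintro ⟨h1, h2, h3, h4⟩
      exact ⟨⟨h1, h2, h3⟩, h4⟩
    · rintro ⟨⟨h1, h2, h3⟩, h4⟩
      exact ⟨h1, h2, h3, h4⟩
  · congr 1
    ext p
    rw [mem_filter, mem_filter, mem_filter, not_not]
    constructor
    · rintro ⟨h1, h2, h3⟩
      exact ⟨⟨h1, h2, fun i => h3 _⟩, h3 _⟩
    · rintro ⟨⟨h1, h2, h3⟩, h4⟩
      refine ⟨h1, h2, fun i => ?_⟩
      induction i using Fin.lastCases with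
      | last => exact h4
      | cast i => exact h3 i

/-- the conclusion for one system -/
def GoodX {k : ℕ} (ε κ : ℝ) (N : ℕ) (c h : Fin (k + 1) → ℕ) : Prop :=
  AdmL (ini c) (ini h) → ∃ S : ℝ, κ ≤ S ∧ Filter.Tendsto (fun z => sgL (ini c) (ini h) z) Filter.atTop (nhds S) ∧
    |(cntL (ini c) (ini h) N : ℝ) - S * N / Real.log N ^ (k + 1)| ≤ ε * (S * N / Real.log N ^ (k + 1)) ∧
    |(cntX c h N : ℝ) - S * N / Real.log N ^ (k + 1)| ≤ ε * (S * N / Real.log N ^ (k + 1))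

lemma exact_det {k : ℕ} (C : ℕ) (ε : ℝ) (hε : 0 < ε) (κ : ℝ) (hκ : 0 < κ)
    (hlow : ∀ c h : Fin k → ℕ, AdmL c h → ∀ z : ℕ, κ ≤ sgL c h z) : ∃ N₀ : ℕ, ∀ N : ℕ, N₀ ≤ N →
    ∀ c h : Fin (k + 1) → ℕ, (∀ i, 1 ≤ c i) → (∀ i, c i + 2 ≤ C) → (∀ i, h i ≤ 2 * N) →
    GoodL 2 N c h → GoodL 2 N (ini c) (ini h) → GoodX ε κ N c h := by
  obtain ⟨e, he⟩ : ∃ e : ℝ, e = min 1 (ε / 16) := ⟨_, rfl⟩
  have he0 : 0 < e := by rw [he]; exact lt_min one_pos (by positivity)
  have he1 : e ≤ 1 := by rw [he]; exact min_le_left _ _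
  have heε : 16 * e ≤ ε := by
    have : e ≤ ε / 16 := by rw [he]; exact min_le_right _ _
    linarith
  obtain ⟨N₁, h1⟩ := cnt_lin k C e he0
  obtain ⟨N₂, h2⟩ := cnt_lin (k + 1) C e he0
  obtain ⟨N₃, h3⟩ := Vz_inv_tiny 4 (e / 12) (by positivity)
  obtain ⟨N₄, h4⟩ := card_badL_le (k + 1) C
  obtain ⟨N₅, h5⟩ := ev_L' (8 / (e * κ) + 3 * (k + 2) + C + 2)
  refine ⟨N₁ + N₂ + N₃ + N₄ + N₅ + 3, fun N hN c h hc hcC hh hg hg' hadm => ?_⟩
  obtain ⟨hnd, S, hS, hW⟩ := hg
  obtain ⟨hnd', S', hS', hW'⟩ := hg'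
  have hN0 : (0 : ℝ) < N := by exact_mod_cast (by omega : 0 < N)
  obtain ⟨c1a, c1b⟩ := h1 N (by omega) (ini c) (ini h) (fun i => hc _) (fun i => hcC _) (fun i => hh _)
  obtain ⟨c2a, c2b⟩ := h2 N (by omega) c h hc hcC hh
  have c3 := h3 N (by omega)
  have c4 := h4 N (by omega) c h hcC hh
  have c5 := h5 N (by omega)
  have hκS : κ ≤ S' := ge_of_tendsto' hS' (hlow _ _ hadm)
  refine ⟨S', hκS, hS', ?_⟩
  obtain ⟨L, hLd⟩ : ∃ L, L = Real.log (N : ℝ) := ⟨_, rfl⟩
  rw [← hLd] at c1a c1b c2a c2b c3 c4 c5 hW hW' ⊢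
  have p1 : 0 < 8 / (e * κ) := by positivity
  have p2 : (0 : ℝ) ≤ C := Nat.cast_nonneg _
  have p3 : (0 : ℝ) ≤ k := Nat.cast_nonneg _
  have hL1 : 2 ≤ L := by linarith
  have hL0 : 0 < L := by linarith
  have hS'0 : 0 < S' := by linarith
  -- `N / L ≤ (e / 8) S' N`
  have hsmall : (N : ℝ) / L ≤ (e / 8) * (S' * N) := by
    rw [div_le_iff₀ hL0]
    have e1 : 8 / (e * κ) ≤ L := by linarith
    rw [div_le_iff₀ (by positivity)] at e1
    have e2 : 8 ≤ L * (e * S') := e1.trans (by gcongr)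
    nlinarith
  have hsmall2 : (N : ℝ) / L ^ 2 ≤ N / L := by
    apply div_le_div_of_nonneg_left hN0.le hL0
    nlinarith
  have hSN : 0 < S' * N := by positivity
  -- the subsystem
  have u1 : (cntL (ini c) (ini h) N : ℝ) * L ^ (k + 1) ≤ (1 + 2 * e) * (S' * N) := by
    have e1 := (abs_le.1 hW').2
    have e2 : linCount (ini c) (ini h) N ≤ (1 + e / 8) * (S' * N) := by linarith
    have e3 : (1 + e) * linCount (ini c) (ini h) N ≤ (1 + e) * ((1 + e / 8) * (S' * N)) :=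
      mul_le_mul_of_nonneg_left e2 (by linarith)
    have e4 : e * e ≤ e := by nlinarith
    have e5 : (e * e) * (S' * N) ≤ e * (S' * N) := mul_le_mul_of_nonneg_right e4 hSN.le
    have e6 : 0 < e * (S' * N) := by positivity
    nlinarith
  have u2 : (1 - 2 * e) * (S' * N) ≤ (cntL (ini c) (ini h) N : ℝ) * L ^ (k + 1) := by
    have e1 := (abs_le.1 hW').1
    have e2 : (1 - e) * (S' * N) ≤ linCount (ini c) (ini h) N := by nlinarith
    have e3 := e2.trans c1b
    have e4 : (1 - 2 * e) * (1 + e) ≤ 1 - e := by nlinarith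
    have e5 : (1 + e) * ((1 - 2 * e) * (S' * N)) ≤ (1 + e) * ((cntL (ini c) (ini h) N : ℝ) * L ^ (k + 1)) := by
      refine le_trans ?_ e3
      calc (1 + e) * ((1 - 2 * e) * (S' * N)) = ((1 - 2 * e) * (1 + e)) * (S' * N) := by ring
        _ ≤ _ := mul_le_mul_of_nonneg_right e4 hSN.le
    exact le_of_mul_le_mul_left e5 (by linarith)
  -- the full system
  have hratio : S ≤ S' * ((e / 12 * L) * 3) := by
    obtain ⟨y, hy⟩ : ∃ y, y = ⌈L ^ 3⌉₊ := ⟨_, rfl⟩
    have hy1 : L ^ 3 ≤ y := by rw [hy]; exact Nat.le_ceil _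
    have hL3 : L ≤ L ^ 3 := by
      calc L = L ^ 1 := (pow_one L).symm
        _ ≤ L ^ 3 := pow_le_pow_right₀ (by linarith) (by norm_num)
    have hy0 : (0 : ℝ) < y := by linarith
    have hy2 : (y : ℝ) ≤ L ^ 4 := by
      have := Nat.ceil_lt_add_one (show 0 ≤ L ^ 3 by positivity)
      rw [← hy] at this
      have e1 : 1 ≤ L ^ 3 := one_le_pow₀ (by linarith)
      calc (y : ℝ) ≤ L ^ 3 + 1 := this.le
        _ ≤ 2 * L ^ 3 := by linarith
        _ ≤ L * L ^ 3 := mul_le_mul_of_nonneg_right (by linarith) (by positivity)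
        _ = L ^ 4 := by ring
    have hV := c3 y (by exact_mod_cast (by linarith : (1 : ℝ) ≤ y)) hy2
    have hy3 : 3 * (k + 2) ≤ y := by
      have : ((3 * (k + 2) : ℕ) : ℝ) ≤ y := by push_cast; linarith
      exact_mod_cast this
    have hy4 : ∀ i, c i ≤ y := by
      intro i
      have e1 : ((c i : ℕ) : ℝ) ≤ C := by exact_mod_cast (by have := hcC i; omega : c i ≤ C)
      have : ((c i : ℕ) : ℝ) ≤ y := by linarith
      exact_mod_cast this
    have hexp : Real.exp (2 * (badL c h).card / y) ≤ 3 := by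
      have e1 : 2 * ((badL c h).card : ℝ) / y ≤ 1 := by
        rw [div_le_one hy0]
        have : 2 * L ^ 2 ≤ L * L ^ 2 := mul_le_mul_of_nonneg_right hL1 (by positivity)
        have e2 : L * L ^ 2 = L ^ 3 := by ring
        linarith
      refine (Real.exp_le_exp.2 e1).trans ?_
      linarith [Real.exp_one_lt_d9]
    have hr : ∀ z, sgL c h z ≤ sgL (ini c) (ini h) z * ((e / 12 * L) * 3) := by
      intro z
      refine (sgL_ratio c h hc hnd y hy3 hy4 z).trans ?_
      apply mul_le_mul_of_nonneg_left _ (sgL_nonneg _ _ _)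
      exact mul_le_mul hV hexp (Real.exp_pos _).le (by positivity)
    exact le_of_tendsto_of_tendsto' hS (hS'.mul_const _) hr
  have u3 : (cntL c h N : ℝ) * L ^ (k + 2) ≤ (e * (S' * N)) * L := by
    have e1 := (abs_le.1 hW).2
    have e2 : linCount c h N ≤ S' * (e / 12 * L * 3) * N + N / L ^ 2 := by nlinarith
    have e3 : (1 + e) * linCount c h N ≤ 2 * (S' * (e / 12 * L * 3) * N + N / L ^ 2) := by
      have q1 : 0 ≤ S' * (e / 12 * L * 3) * N + N / L ^ 2 := by positivity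
      have q2 : (1 + e) * linCount c h N ≤ (1 + e) * (S' * (e / 12 * L * 3) * N + N / L ^ 2) :=
        mul_le_mul_of_nonneg_left e2 (by linarith)
      nlinarith
    have e4 : (cntL c h N : ℝ) * L ^ (k + 2) ≤ (1 + e) * linCount c h N + N / L := c2a
    have e5 : (N : ℝ) / L ≤ (e / 8) * (S' * N) * L := by
      refine hsmall.trans (le_mul_of_one_le_right (by positivity) (by linarith))
    nlinarith
  have u4 : (cntL c h N : ℝ) * L ^ (k + 1) ≤ e * (S' * N) := by
    have : (cntL c h N : ℝ) * L ^ (k + 1) * L ≤ (e * (S' * N)) * L := by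
      refine le_trans (le_of_eq ?_) u3
      ring
    exact le_of_mul_le_mul_right this hL0
  have hLk : 0 < L ^ (k + 1) := by positivity
  have hX : (cntX c h N : ℝ) = cntL (ini c) (ini h) N - cntL c h N := by
    have := cntX_eq c h N
    rw [eq_sub_iff_add_eq]
    exact_mod_cast this
  have hcL0 : 0 ≤ (cntL c h N : ℝ) * L ^ (k + 1) := by positivity
  have hdiv : ∀ x : ℝ, |x * L ^ (k + 1) - S' * N| ≤ ε * (S' * N) → |x - S' * N / L ^ (k + 1)| ≤ ε * (S' * N / L ^ (k + 1)) := by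
    intro x hx
    have e1 : x - S' * N / L ^ (k + 1) = (x * L ^ (k + 1) - S' * N) / L ^ (k + 1) := by field_simp
    rw [e1, abs_div, abs_of_pos hLk, div_le_iff₀ hLk]
    refine hx.trans (le_of_eq ?_)
    field_simp
  constructor
  · apply hdiv
    rw [abs_le]
    constructor <;> nlinarith
  · apply hdiv
    rw [hX, sub_mul, abs_le]
    constructor <;> nlinarith

lemma few_ini {k J : ℕ} (R : (Fin k → ℕ) → Prop) [DecidablePred R] :
    ((Fintype.piFinset (fun _ : Fin (k + 1) => Icc 1 J)).filter (fun m => R (ini m))).card ≤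
      ((Fintype.piFinset (fun _ : Fin k => Icc 1 J)).filter R).card * J := by
  have h1 : (Fintype.piFinset (fun _ : Fin (k + 1) => Icc 1 J)).filter (fun m => R (ini m)) ⊆
      (((Fintype.piFinset (fun _ : Fin k => Icc 1 J)).filter R) ×ˢ Icc 1 J).image
        (fun t : (Fin k → ℕ) × ℕ => (Fin.snoc t.1 t.2 : Fin (k + 1) → ℕ)) := by
    intro m hm
    rw [mem_filter, Fintype.mem_piFinset] at hm
    rw [mem_image]
    refine ⟨(ini m, m (Fin.last k)), ?_, ?_⟩
    · rw [mem_product, mem_filter, Fintype.mem_piFinset]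
      exact ⟨⟨fun i => hm.1 _, hm.2⟩, hm.1 _⟩
    · simp only
      exact Fin.snoc_init_self m
  refine (card_le_card h1).trans (card_image_le.trans ?_)
  rw [card_product, Nat.card_Icc, Nat.add_sub_cancel]

open Classical in
/-- **systems of linear forms, the last form composite** -/
theorem lin_exact {k : ℕ} (c : Fin (k + 1) → ℕ) (hc : ∀ i, 1 ≤ c i) : ∃ κ : ℝ, 0 < κ ∧ ∀ (A : ℕ) (ε : ℝ), 0 < ε →
    ∃ B N₀ : ℕ, ∀ N : ℕ, N₀ ≤ N → ∀ Q : ℕ,
    (Q : ℝ) * Real.log N ^ B ≤ N → ∃ S : Finset ℕ, (S.card : ℝ) ≤ Q / Real.log N ^ A ∧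
      ∀ q ∈ Ioc Q (2 * Q), q ∉ S → ∀ r : Fin (k + 1) → ℕ, (∀ i, r i ≤ N) →
      (((Fintype.piFinset (fun _ : Fin (k + 1) => range (N / q + 1))).filter
        (fun j => ¬ GoodX ε κ N c (fun i => r i + q * j i))).card : ℝ) ≤
        ((N / q + 1 : ℕ) : ℝ) ^ (k + 1) / Real.log N ^ A := by
  obtain ⟨κ, hκ, hlow⟩ := sgL_low k
  refine ⟨κ, hκ, fun A ε hε => ?_⟩
  obtain ⟨C, hC⟩ : ∃ C, C = 2 + ∑ i, c i := ⟨_, rfl⟩
  obtain ⟨B₁, N₁, h1⟩ := lin_main c hc (A + 1) 2
  obtain ⟨B₂, N₂, h2⟩ := lin_main (ini c) (fun i => hc _) (A + 1) 2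
  obtain ⟨N₃, h3⟩ := exact_det (k := k) C ε hε κ hκ hlow
  obtain ⟨N₄, h4⟩ := ev_L' 2
  refine ⟨B₁ + B₂, N₁ + N₂ + N₃ + N₄ + 3, fun N hN Q hQ => ?_⟩
  have hN0 : (0 : ℝ) < N := by exact_mod_cast (by omega : 0 < N)
  have c1 := h1 N (by omega) Q
  have c2 := h2 N (by omega) Q
  have c3 := h3 N (by omega)
  have c4 := h4 N (by omega)
  obtain ⟨L, hLd⟩ : ∃ L, L = Real.log (N : ℝ) := ⟨_, rfl⟩
  rw [← hLd] at c1 c2 c4 hQ ⊢
  have hL0 : 0 < L := by linarith
  have hL1 : 1 ≤ L := by linarith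
  obtain ⟨S₁, a1, a2⟩ := c1 ((mul_le_mul_of_nonneg_left (pow_le_pow_right₀ hL1 (by omega)) (Nat.cast_nonneg _)).trans hQ)
  obtain ⟨S₂, b1, b2⟩ := c2 ((mul_le_mul_of_nonneg_left (pow_le_pow_right₀ hL1 (by omega)) (Nat.cast_nonneg _)).trans hQ)
  have hhalf : ∀ x : ℝ, 0 ≤ x → x / L ^ (A + 1) ≤ x / L ^ A / 2 := by
    intro x hx
    rw [pow_succ, ← div_div]
    exact div_le_div_of_nonneg_left (by positivity) (by norm_num) c4
  refine ⟨S₁ ∪ S₂, ?_, fun q hqQ hqS r hr => ?_⟩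
  · have e1 : (((S₁ ∪ S₂).card : ℕ) : ℝ) ≤ S₁.card + S₂.card := by exact_mod_cast card_union_le _ _
    have e2 := hhalf Q (Nat.cast_nonneg _)
    linarith
  rw [mem_union, not_or] at hqS
  have d1 := a2 q hqQ hqS.1 r hr
  have d2 := b2 q hqQ hqS.2 (ini r) (fun i => hr _)
  have hqN : q ≤ N ∨ N < q := le_or_gt _ _
  obtain ⟨J, hJ⟩ : ∃ J, J = N / q + 1 := ⟨_, rfl⟩
  have hq1 : 1 ≤ q := by rw [mem_Ioc] at hqQ; omega
  rw [← hJ] at d1 d2 ⊢
  have hJ0 : (0 : ℝ) ≤ J := Nat.cast_nonneg _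
  have hcC : ∀ i, c i + 2 ≤ C := by
    intro i
    have := single_le_sum (f := c) (s := univ) (fun _ _ => Nat.zero_le _) (mem_univ i)
    omega
  have hcard : ((Fintype.piFinset (fun _ : Fin (k + 1) => range J)).filter
        (fun j => ¬ GoodX ε κ N c (fun i => r i + q * j i))).card ≤
      ((Fintype.piFinset (fun _ : Fin (k + 1) => Icc 1 J)).filter (fun m => ¬ GoodL 2 N c (fun i => hv (r i) q (m i)))).card +
      ((Fintype.piFinset (fun _ : Fin (k + 1) => Icc 1 J)).filter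
        (fun m => ¬ GoodL 2 N (ini c) (fun i => hv (ini r i) q (ini m i)))).card := by
    have e1 : ((Fintype.piFinset (fun _ : Fin (k + 1) => range J)).filter
        (fun j => ¬ GoodX ε κ N c (fun i => r i + q * j i))).card =
        (((Fintype.piFinset (fun _ : Fin (k + 1) => range J)).filter
        (fun j => ¬ GoodX ε κ N c (fun i => r i + q * j i))).image (fun j i => j i + 1)).card := by
      rw [card_image_of_injective]
      intro j j' hjj
      funext i
      have := congrFun hjj i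
      simp only at this
      omega
    rw [e1]
    refine (card_le_card ?_).trans (card_union_le _ _)
    intro m hm
    rw [mem_image] at hm
    obtain ⟨j, hj, rfl⟩ := hm
    rw [mem_filter, Fintype.mem_piFinset] at hj
    rw [mem_union, mem_filter, mem_filter, Fintype.mem_piFinset]
    have e2 : ∀ i, hv (r i) q (j i + 1) = r i + q * j i := by
      intro i
      unfold hv
      rw [Nat.add_sub_cancel]
    have e3 : ∀ i : Fin (k + 1), j i + 1 ∈ Icc 1 J := by
      intro i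
      have := mem_range.1 (hj.1 i)
      rw [mem_Icc]
      omega
    by_contra hcon
    rw [not_or, not_and, not_and, not_not, not_not] at hcon
    obtain ⟨f1, f2⟩ := hcon
    have f1' := f1 e3
    have f2' := f2 e3
    apply hj.2
    refine c3 c (fun i => r i + q * j i) hc hcC (fun i => ?_) ?_ ?_
    · have g1 := mem_range.1 (hj.1 i)
      have g2 : q * j i ≤ q * (N / q) := Nat.mul_le_mul_left q (by omega)
      have g3 := Nat.mul_div_le N q
      have g4 := hr i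
      omega
    · simpa only [e2] using f1'
    · simpa only [ini, e2] using f2'
  have d3 := few_ini (k := k) (J := J) (fun m => ¬ GoodL 2 N (ini c) (fun i => hv (ini r i) q (m i)))
  have d4 : (((Fintype.piFinset (fun _ : Fin (k + 1) => range J)).filter
        (fun j => ¬ GoodX ε κ N c (fun i => r i + q * j i))).card : ℝ) ≤
      (J : ℝ) ^ (k + 1) / L ^ (A + 1) + ((J : ℝ) ^ k / L ^ (A + 1)) * J := by
    refine le_trans ((Nat.cast_le (α := ℝ)).2 hcard) ?_
    rw [Nat.cast_add]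
    refine add_le_add d1 (le_trans ((Nat.cast_le (α := ℝ)).2 d3) ?_)
    rw [Nat.cast_mul]
    exact mul_le_mul_of_nonneg_right d2 hJ0
  refine d4.trans ?_
  have e5 : ((J : ℝ) ^ k / L ^ (A + 1)) * J = (J : ℝ) ^ (k + 1) / L ^ (A + 1) := by rw [pow_succ]; ring
  have e6 := hhalf ((J : ℝ) ^ (k + 1)) (by positivity)
  rw [e5]
  linarith

end Pool.Agent.T2h83.AM
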