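import Pool.Agent.T2h83.AM.Lin5

set_option autoImplicit false

/-! Systems of linear forms: the number of primes for which all the forms are primes. -/

namespace Pool.Agent.T2h83.AM

open Finset
open Pool.Agent.H373R2.T7 (lamz Vz pz mem_pz Vz_pos Vz_inv_small ev_L' ev_log')

/-- the conclusion for one system -/
def GoodC {k : ℕ} (ε κ : ℝ) (N : ℕ) (c h : Fin k → ℕ) : Prop :=
  AdmL c h → ∃ S : ℝ, κ ≤ S ∧ Filter.Tendsto (fun z => sgL c h z) Filter.atTop (nhds S) ∧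
    |(cntL c h N : ℝ) - S * N / Real.log N ^ (k + 1)| ≤ ε * (S * N / Real.log N ^ (k + 1))

lemma cnt_det {k : ℕ} (C : ℕ) (ε : ℝ) (hε : 0 < ε) (κ : ℝ) (hκ : 0 < κ)
    (hlow : ∀ c h : Fin k → ℕ, AdmL c h → ∀ z : ℕ, κ ≤ sgL c h z) : ∃ N₀ : ℕ, ∀ N : ℕ, N₀ ≤ N →
    ∀ c h : Fin k → ℕ, (∀ i, 1 ≤ c i) → (∀ i, c i + 2 ≤ C) → (∀ i, h i ≤ 2 * N) →
    GoodL 2 N c h → GoodC ε κ N c h := by
  obtain ⟨e, he⟩ : ∃ e : ℝ, e = min 1 (ε / 16) := ⟨_, rfl⟩
  have he0 : 0 < e := by rw [he]; exact lt_min one_pos (by positivity)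
  have he1 : e ≤ 1 := by rw [he]; exact min_le_left _ _
  have heε : 16 * e ≤ ε := by
    have : e ≤ ε / 16 := by rw [he]; exact min_le_right _ _
    linarith
  obtain ⟨N₁, h1⟩ := cnt_lin k C e he0
  obtain ⟨N₅, h5⟩ := ev_L' (8 / (e * κ) + 3 * (k + 2) + C + 2)
  refine ⟨N₁ + N₅ + 3, fun N hN c h hc hcC hh hg hadm => ?_⟩
  obtain ⟨hnd', S', hS', hW'⟩ := hg
  have hN0 : (0 : ℝ) < N := by exact_mod_cast (by omega : 0 < N)
  obtain ⟨c1a, c1b⟩ := h1 N (by omega) c h hc hcC hh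
  have c5 := h5 N (by omega)
  have hκS : κ ≤ S' := ge_of_tendsto' hS' (hlow _ _ hadm)
  refine ⟨S', hκS, hS', ?_⟩
  obtain ⟨L, hLd⟩ : ∃ L, L = Real.log (N : ℝ) := ⟨_, rfl⟩
  rw [← hLd] at c1a c1b c5 hW' ⊢
  have p1 : 0 < 8 / (e * κ) := by positivity
  have p2 : (0 : ℝ) ≤ C := Nat.cast_nonneg _
  have p3 : (0 : ℝ) ≤ k := Nat.cast_nonneg _
  have hL1 : 2 ≤ L := by linarith
  have hL0 : 0 < L := by linarith
  have hS'0 : 0 < S' := by linarith
  have hsmall : (N : ℝ) / L ≤ (e / 8) * (S' * N) := by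
    rw [div_le_iff₀ hL0]
    have e1 : 8 / (e * κ) ≤ L := by linarith
    rw [div_le_iff₀ (by positivity)] at e1
    have e2 : 8 ≤ L * (e * S') := e1.trans (by gcongr)
    nlinarith
  have hsmall2 : (N : ℝ) / L ^ 2 ≤ N / L := by
    apply div_le_div_of_nonneg_left hN0.le hL0
    nlinarith
  have hSN : 0 < S' * N := by positivity
  have u1 : (cntL c h N : ℝ) * L ^ (k + 1) ≤ (1 + 2 * e) * (S' * N) := by
    have e1 := (abs_le.1 hW').2
    have e2 : linCount c h N ≤ (1 + e / 8) * (S' * N) := by linarith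
    have e3 : (1 + e) * linCount c h N ≤ (1 + e) * ((1 + e / 8) * (S' * N)) :=
      mul_le_mul_of_nonneg_left e2 (by linarith)
    have e4 : e * e ≤ e := by nlinarith
    have e5 : (e * e) * (S' * N) ≤ e * (S' * N) := mul_le_mul_of_nonneg_right e4 hSN.le
    have e6 : 0 < e * (S' * N) := by positivity
    nlinarith
  have u2 : (1 - 2 * e) * (S' * N) ≤ (cntL c h N : ℝ) * L ^ (k + 1) := by
    have e1 := (abs_le.1 hW').1
    have e2 : (1 - e) * (S' * N) ≤ linCount c h N := by nlinarith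
    have e3 := e2.trans c1b
    have e4 : (1 - 2 * e) * (1 + e) ≤ 1 - e := by nlinarith
    have e5 : (1 + e) * ((1 - 2 * e) * (S' * N)) ≤ (1 + e) * ((cntL c h N : ℝ) * L ^ (k + 1)) := by
      refine le_trans ?_ e3
      calc (1 + e) * ((1 - 2 * e) * (S' * N)) = ((1 - 2 * e) * (1 + e)) * (S' * N) := by ring
        _ ≤ _ := mul_le_mul_of_nonneg_right e4 hSN.le
    exact le_of_mul_le_mul_left e5 (by linarith)
  have hLk : 0 < L ^ (k + 1) := by positivity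
  have e1 : (cntL c h N : ℝ) - S' * N / L ^ (k + 1) = ((cntL c h N : ℝ) * L ^ (k + 1) - S' * N) / L ^ (k + 1) := by field_simp
  rw [e1, abs_div, abs_of_pos hLk, div_le_iff₀ hLk]
  have e2 : ε * (S' * N / L ^ (k + 1)) * L ^ (k + 1) = ε * (S' * N) := by field_simp
  rw [e2, abs_le]
  constructor <;> nlinarith

open Classical in
/-- **systems of linear forms, all the forms prime** -/
theorem lin_count {k : ℕ} (c : Fin k → ℕ) (hc : ∀ i, 1 ≤ c i) : ∃ κ : ℝ, 0 < κ ∧ ∀ (A : ℕ) (ε : ℝ), 0 < ε →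
    ∃ B N₀ : ℕ, ∀ N : ℕ, N₀ ≤ N → ∀ Q : ℕ,
    (Q : ℝ) * Real.log N ^ B ≤ N → ∃ S : Finset ℕ, (S.card : ℝ) ≤ Q / Real.log N ^ A ∧
      ∀ q ∈ Ioc Q (2 * Q), q ∉ S → ∀ r : Fin k → ℕ, (∀ i, r i ≤ N) →
      (((Fintype.piFinset (fun _ : Fin k => range (N / q + 1))).filter
        (fun j => ¬ GoodC ε κ N c (fun i => r i + q * j i))).card : ℝ) ≤
        ((N / q + 1 : ℕ) : ℝ) ^ k / Real.log N ^ A := by
  obtain ⟨κ, hκ, hlow⟩ := sgL_low k
  refine ⟨κ, hκ, fun A ε hε => ?_⟩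
  obtain ⟨C, hC⟩ : ∃ C, C = 2 + ∑ i, c i := ⟨_, rfl⟩
  obtain ⟨B₁, N₁, h1⟩ := lin_main c hc A 2
  obtain ⟨N₃, h3⟩ := cnt_det (k := k) C ε hε κ hκ hlow
  refine ⟨B₁, N₁ + N₃ + 3, fun N hN Q hQ => ?_⟩
  have c1 := h1 N (by omega) Q
  have c3 := h3 N (by omega)
  obtain ⟨S₁, a1, a2⟩ := c1 hQ
  refine ⟨S₁, a1, fun q hqQ hqS r hr => ?_⟩
  have d1 := a2 q hqQ hqS r hr
  obtain ⟨J, hJ⟩ : ∃ J, J = N / q + 1 := ⟨_, rfl⟩
  have hq1 : 1 ≤ q := by rw [mem_Ioc] at hqQ; omega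
  rw [← hJ] at d1 ⊢
  have hcC : ∀ i, c i + 2 ≤ C := by
    intro i
    have := single_le_sum (f := c) (s := univ) (fun _ _ => Nat.zero_le _) (mem_univ i)
    omega
  refine le_trans ((Nat.cast_le (α := ℝ)).2 ?_) d1
  have e1 : ((Fintype.piFinset (fun _ : Fin k => range J)).filter
      (fun j => ¬ GoodC ε κ N c (fun i => r i + q * j i))).card =
      (((Fintype.piFinset (fun _ : Fin k => range J)).filter
      (fun j => ¬ GoodC ε κ N c (fun i => r i + q * j i))).image (fun j i => j i + 1)).card := by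
    rw [card_image_of_injective]
    intro j j' hjj
    funext i
    have := congrFun hjj i
    simp only at this
    omega
  rw [e1]
  apply card_le_card
  intro m hm
  rw [mem_image] at hm
  obtain ⟨j, hj, rfl⟩ := hm
  rw [mem_filter, Fintype.mem_piFinset] at hj
  rw [mem_filter, Fintype.mem_piFinset]
  have e2 : ∀ i, hv (r i) q (j i + 1) = r i + q * j i := by
    intro i
    unfold hv
    rw [Nat.add_sub_cancel]
  have e3 : ∀ i : Fin k, j i + 1 ∈ Icc 1 J := by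
    intro i
    have := mem_range.1 (hj.1 i)
    rw [mem_Icc]
    omega
  refine ⟨e3, fun hcon => hj.2 ?_⟩
  refine c3 c (fun i => r i + q * j i) hc hcC (fun i => ?_) ?_
  · have g1 := mem_range.1 (hj.1 i)
    have g2 : q * j i ≤ q * (N / q) := Nat.mul_le_mul_left q (by omega)
    have g3 := Nat.mul_div_le N q
    have g4 := hr i
    omega
  · simpa only [e2] using hcon

end Pool.Agent.T2h83.AM
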