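import Pool.Agent.T2h83.AM.Main
import Pool.Agent.R460.GQ.Cz

set_option autoImplicit false

/-! Project AM (helper83): the correlations of the primes with all the shifts in all the residue classes of almost all
moduli. Adapted from `R460/GQ/Cz`. -/

namespace Pool.Agent.T2h83.AM

open Finset
open Pool.Agent.R460.GS
open Pool.Agent.R460.GH
open Pool.Agent.R460.GQ
open Pool.Agent.R460.GP (cvd convC_tr)
open Pool.Agent.H373R2.T7 (lamz Vz pz lamI lamzI Vz_pos lamI_nonneg lamzI_nonneg lamI_le lamzI_le Vz_inv_small)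
open Pool.Agent.Y883.T3 (lsh)
open Pool.Agent.Y883.GJ
open Pool.Agent.Y614.GJ.Core (ev_log P P_nonneg)
open Pool.Agent.Y614.GJ.CoreC (S_leC)

/-- the mean square of a correlation in the classes of a good modulus -/
lemma cls_sqd {q N y : ℕ} [NeZero q] (F G : ℕ → ℂ) (hN : 1 ≤ N) (hy : y ≤ N) (a : ZMod q) (Y : ℝ)
    (hY : ∀ β : ℝ, ∑ c ∈ range q, ‖sm N G (β + c / q)‖ ^ 2 ≤ Y) :
    ∑ n ∈ (Icc (-(N : ℤ)) N).filter (fun n : ℤ => (n : ZMod q) = a), ‖cvd F G y N n‖ ^ 2 ≤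
      Y / q * ∑ n ∈ Icc 1 N, ‖F n‖ ^ 2 := by
  classical
  have hq0 : (0 : ℝ) < q := by exact_mod_cast NeZero.pos q
  obtain ⟨D, hD⟩ : ∃ D : ℝ, D = ((2 * N + 1 : ℕ) : ℝ) := ⟨_, rfl⟩
  have hD0 : 0 < D := by rw [hD]; positivity
  have h3 := Pool.Agent.Y697.GJ.parsC q N (tr y F) G hN a
  obtain ⟨-, h2⟩ := Pool.Agent.Y872.GJ.pars q N (tr y F) (tr y F) hN
  rw [← hD] at h2 h3
  have hP : ∀ β, P q N G β ≤ Y / q := by
    intro β
    rw [le_div_iff₀ hq0, mul_comm, ← P_eq]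
    exact hY β
  have hY0 : 0 ≤ Y / q := (P_nonneg q N G 0).trans (hP 0)
  have e0 : ∀ n : ℤ, (∑ b ∈ Icc 1 N, ∑ c ∈ Icc 1 N, if (b : ℤ) - c = n then tr y F b * (starRingEnd ℂ) (G c) else 0) =
      cvd F G y N n := by
    intro n
    have := convC_tr hy (le_refl N) F G n
    unfold cvd
    rw [← this]
    refine sum_congr rfl fun b _ => sum_congr rfl fun c hc => ?_
    rw [mem_Icc] at hc
    have e : tr N G c = G c := by
      unfold tr
      rw [if_pos hc.2]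
    rw [e]
  simp only [e0] at h3
  have h4 : D * ∑ n ∈ (Icc (-(N : ℤ)) N).filter (fun n : ℤ => (n : ZMod q) = a), ‖cvd F G y N n‖ ^ 2 ≤
      D * (Y / q * ∑ n ∈ Icc 1 N, ‖F n‖ ^ 2) := by
    rw [h3]
    calc ∑ t ∈ range (2 * N + 1), ‖∑ l : ZMod q, cl q N (tr y F) ((t : ℝ) / D) l *
          (starRingEnd ℂ) (cl q N G ((t : ℝ) / D) (l - a))‖ ^ 2
        ≤ ∑ t ∈ range (2 * N + 1), P q N (tr y F) ((t : ℝ) / D) * (Y / q) := by
          refine sum_le_sum fun t _ => ?_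
          refine (S_leC q N (tr y F) G _ a).trans ?_
          exact mul_le_mul_of_nonneg_left (hP _) (P_nonneg _ _ _ _)
      _ = (∑ t ∈ range (2 * N + 1), P q N (tr y F) ((t : ℝ) / D)) * (Y / q) := by rw [sum_mul]
      _ = (D * ∑ n ∈ Icc 1 N, ‖tr y F n‖ ^ 2) * (Y / q) := by
          unfold P
          rw [h2]
      _ ≤ (D * ∑ n ∈ Icc 1 N, ‖F n‖ ^ 2) * (Y / q) := by
          have : ∑ n ∈ Icc 1 N, ‖tr y F n‖ ^ 2 ≤ ∑ n ∈ Icc 1 N, ‖F n‖ ^ 2 :=
            sum_le_sum fun n _ => pow_le_pow_left₀ (norm_nonneg _) (norm_tr_le _ _ _) 2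
          gcongr
      _ = _ := by ring
  exact le_of_mul_le_mul_left h4 hD0

theorem cz_A (A C E0 : ℕ) :
    ∃ B E X₀ : ℕ, ∀ X : ℕ, X₀ ≤ X → ∃ z : ℕ, Real.log X ^ E0 ≤ z ∧ (z : ℝ) ≤ Real.log X ^ E ∧
      ∀ M : ℕ, (M : ℝ) * Real.log X ^ B ≤ X → ∃ S : Finset ℕ, (S.card : ℝ) ≤ M / Real.log X ^ A ∧
        ∀ q ∈ Ioc M (2 * M), q ∉ S → ∀ b : ℕ, ((badC C X q b z).card : ℝ) ≤ (X : ℝ) / (q * Real.log X ^ A) := by
  classical
  obtain ⟨A', hA'⟩ : ∃ A', A' = A + 3 * C + 14 := ⟨_, rfl⟩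
  obtain ⟨B', hB'⟩ := err_A A' (C + 2)
  obtain ⟨E1, hE1⟩ : ∃ E1, E1 = max (B' + 1) E0 := ⟨_, rfl⟩
  obtain ⟨N₁, h1⟩ := hB' (E1 + 1)
  obtain ⟨X₂, h2⟩ := Vz_inv_small (E1 + 1)
  obtain ⟨X₃, h3⟩ := Filter.eventually_atTop.1 (ev_log (C + 4) (s := 1) (by norm_num) (2 ^ B' + 400 + 2 ^ (A' + 11)))
  refine ⟨A' + 12, E1 + 1, N₁ + X₂ + X₃ + 3, fun X hX => ?_⟩
  have hX1 : 1 ≤ X := by omega
  have hX0 : (0 : ℝ) < X := by exact_mod_cast hX1
  have hX1r : (1 : ℝ) ≤ X := by exact_mod_cast hX1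
  obtain ⟨hLb, hLp⟩ := h3 X (by omega)
  have c2 := h2 X (by omega)
  obtain ⟨N, hN⟩ : ∃ N, N = 2 * X := ⟨_, rfl⟩
  have hXN : X ≤ N := by omega
  have hNr : (N : ℝ) = 2 * X := by rw [hN]; push_cast; ring
  have c1 := h1 N (by omega)
  have h2A : (0 : ℝ) < 2 ^ (A' + 11) := by positivity
  have h2B0 : (0 : ℝ) < 2 ^ B' := by positivity
  have hL2 : Real.log X ≤ Real.log N := Real.log_le_log hX0 (by exact_mod_cast hXN)
  have hL3 : Real.log N ≤ 2 * Real.log X := by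
    rw [hNr, Real.log_mul (by norm_num) hX0.ne']
    have := Real.log_two_lt_d9
    linarith
  have hLAsq : ∑ n ∈ Icc 1 N, ‖LA n‖ ^ 2 ≤ N * Real.log N ^ 8 :=
    bd_sq (bd_LA (by linarith)) (by linarith)
  rw [Real.rpow_one] at hLp
  obtain ⟨L, hLd⟩ : ∃ L, L = Real.log (X : ℝ) := ⟨_, rfl⟩
  obtain ⟨L', hLd'⟩ : ∃ L', L' = Real.log (N : ℝ) := ⟨_, rfl⟩
  rw [← hLd] at hLb hLp c2 hL2 hL3 ⊢
  rw [← hLd'] at c1 hL2 hL3 hLAsq
  have hL400 : 400 ≤ L := by linarith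
  have hL0 : 0 < L := by linarith
  have hL1 : 1 ≤ L := by linarith
  have hL0' : 0 < L' := by linarith
  -- the parameter `z`
  obtain ⟨z, hz⟩ : ∃ z, z = ⌈L ^ E1⌉₊ := ⟨_, rfl⟩
  have hzlo : L ^ E1 ≤ z := by rw [hz]; exact Nat.le_ceil _
  have hL1B : 1 ≤ L ^ E1 := one_le_pow₀ hL1
  have hzhi : (z : ℝ) ≤ L ^ (E1 + 1) := by
    have := Nat.ceil_lt_add_one (show 0 ≤ L ^ E1 by positivity)
    rw [← hz] at this
    calc (z : ℝ) ≤ L ^ E1 + 1 := this.le
      _ ≤ L ^ E1 + L ^ E1 := by linarith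
      _ = 2 * L ^ E1 := by ring
      _ ≤ L * L ^ E1 := mul_le_mul_of_nonneg_right (by linarith) (by positivity)
      _ = L ^ (E1 + 1) := by ring
  have hzB : L' ^ B' ≤ z := by
    calc L' ^ B' ≤ (2 * L) ^ B' := pow_le_pow_left₀ hL0'.le hL3 _
      _ = 2 ^ B' * L ^ B' := mul_pow _ _ _
      _ ≤ L * L ^ B' := mul_le_mul_of_nonneg_right (by linarith) (by positivity)
      _ = L ^ (B' + 1) := by ring
      _ ≤ L ^ E1 := pow_le_pow_right₀ hL1 (by rw [hE1]; exact le_max_left _ _)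
      _ ≤ z := hzlo
  have hz1 : 1 ≤ z := by
    have : (1 : ℝ) ≤ z := hL1B.trans hzlo
    exact_mod_cast this
  have hV := c2 z hz1 hzhi
  refine ⟨z, (pow_le_pow_right₀ hL1 (by rw [hE1]; exact le_max_right _ _)).trans hzlo, hzhi, ?_⟩
  intro M hMX
  obtain ⟨r, hPar, hsum, hms⟩ := c1 z hzB (hzhi.trans (pow_le_pow_left₀ hL0.le hL2 _))
  have hMN : (M : ℝ) * L' ^ (A' + 11) ≤ N := by
    refine le_trans ?_ (hMX.trans (by exact_mod_cast hXN))
    apply mul_le_mul_of_nonneg_left _ (Nat.cast_nonneg _)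
    calc L' ^ (A' + 11) ≤ (2 * L) ^ (A' + 11) := pow_le_pow_left₀ hL0'.le hL3 _
      _ = 2 ^ (A' + 11) * L ^ (A' + 11) := mul_pow _ _ _
      _ ≤ L * L ^ (A' + 11) := mul_le_mul_of_nonneg_right (by linarith) (by positivity)
      _ = L ^ (A' + 12) := by ring
  have hcS := hms M hMN
  refine ⟨badq N (FF z r) M ((N : ℝ) ^ 2 / L' ^ A'), ?_, ?_⟩
  · refine hcS.trans ?_
    apply div_le_div_of_nonneg_left (Nat.cast_nonneg _) (by positivity)
    exact (pow_le_pow_right₀ hL1 (by omega)).trans (pow_le_pow_left₀ hL0.le hL2 _)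
  intro q hqM hqS b
  have hq1 : 1 ≤ q := by rw [mem_Ioc] at hqM; omega
  have hq0 : (0 : ℝ) < q := by exact_mod_cast hq1
  have : NeZero q := ⟨by omega⟩
  have hgoodq : ∀ β : ℝ, ∑ c ∈ range q, ‖sm N (FF z r) (β + c / q)‖ ^ 2 ≤ (N : ℝ) ^ 2 / L' ^ A' := by
    intro β
    by_contra hcon
    push Not at hcon
    apply hqS
    unfold badq
    rw [mem_filter]
    exact ⟨hqM, β, hcon⟩
  -- the grid
  obtain ⟨Tg, hTg⟩ : ∃ Tg, Tg = ⌈L ^ (C + 3)⌉₊ := ⟨_, rfl⟩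
  have hT1 : L ^ (C + 3) ≤ Tg := by rw [hTg]; exact Nat.le_ceil _
  have hLV : 1 ≤ L ^ (C + 3) := one_le_pow₀ hL1
  have hTg0 : (0 : ℝ) < Tg := by linarith
  have hTgn : 0 < Tg := by exact_mod_cast hTg0
  have hT2 : (Tg : ℝ) + 1 ≤ L ^ (C + 4) := by
    have h4 : (Tg : ℝ) < L ^ (C + 3) + 1 := by
      rw [hTg]
      exact Nat.ceil_lt_add_one (by positivity)
    calc (Tg : ℝ) + 1 ≤ 3 * L ^ (C + 3) := by linarith
      _ ≤ L * L ^ (C + 3) := mul_le_mul_of_nonneg_right (by linarith) (by positivity)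
      _ = L ^ (C + 4) := by ring
  obtain ⟨s, hs⟩ : ∃ s, s = X / Tg + 1 := ⟨_, rfl⟩
  have hsT : X < Tg * s := by
    rw [hs]
    have := Nat.lt_div_mul_add (a := X) (b := Tg) hTgn
    calc X < X / Tg * Tg + Tg := this
      _ = Tg * (X / Tg + 1) := by ring
  have hsr : (s : ℝ) ≤ 2 * (X / L ^ (C + 3)) := by
    rw [hs]
    push_cast
    have h5 : ((X / Tg : ℕ) : ℝ) ≤ X / Tg := Nat.cast_div_le
    have h6 : (X : ℝ) / Tg ≤ X / L ^ (C + 3) := div_le_div_of_nonneg_left hX0.le (by positivity) hT1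
    have h7 : 1 ≤ X / L ^ (C + 3) := by
      rw [le_div_iff₀ (by positivity), one_mul]
      exact (pow_le_pow_right₀ hL1 (by omega)).trans hLp
    linarith
  obtain ⟨t, ht⟩ : ∃ t : ℝ, t = X / (4 * L ^ C) := ⟨_, rfl⟩
  have ht0 : 0 < t := by rw [ht]; positivity
  -- the error from the truncated model
  have htr : L' * ∑ c ∈ Icc 1 N, |lamz z c - lsh z r c| ≤ t := by
    calc L' * ∑ c ∈ Icc 1 N, |lamz z c - lsh z r c| ≤ L' * (N / L' ^ (C + 2)) :=
          mul_le_mul_of_nonneg_left hsum hL0'.le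
      _ = N / L' ^ (C + 1) := by rw [pow_succ L' (C + 1)]; field_simp
      _ ≤ N / L ^ (C + 1) := by
          apply div_le_div_of_nonneg_left (by positivity) (by positivity)
          exact pow_le_pow_left₀ hL0.le hL2 _
      _ ≤ t := by
          rw [ht, hNr, div_le_div_iff₀ (by positivity) (by positivity)]
          have e : L ^ (C + 1) = L ^ C * L := by ring
          rw [e]
          have h6 : 0 ≤ (X : ℝ) * L ^ C := by positivity
          calc 2 * (X : ℝ) * (4 * L ^ C) = (X * L ^ C) * 8 := by ring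
            _ ≤ (X * L ^ C) * L := mul_le_mul_of_nonneg_left (by linarith) h6
            _ = _ := by ring
  -- the gap
  obtain ⟨D, hD⟩ : ∃ D, D = 4 * L := ⟨_, rfl⟩
  have hDb : Real.log (N : ℝ) + (Vz z)⁻¹ ≤ D := by
    rw [← hLd', hD]
    linarith
  have hgap : (s : ℝ) * (D * D) ≤ t := by
    calc (s : ℝ) * (D * D) ≤ 2 * (X / L ^ (C + 3)) * (D * D) := mul_le_mul_of_nonneg_right hsr (mul_self_nonneg D)
      _ = 32 * (X / L ^ (C + 1)) := by
          rw [hD, show C + 3 = (C + 1) + 2 by ring, pow_add L (C + 1) 2]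
          field_simp
          try ring
      _ ≤ t := by
          rw [ht, mul_div_assoc', div_le_div_iff₀ (by positivity) (by positivity)]
          have e : L ^ (C + 1) = L ^ C * L := by ring
          rw [e]
          have h6 : 0 ≤ (X : ℝ) * L ^ C := by positivity
          calc 32 * (X : ℝ) * (4 * L ^ C) = (X * L ^ C) * 128 := by ring
            _ ≤ (X * L ^ C) * L := mul_le_mul_of_nonneg_left (by linarith) h6
            _ = _ := by ring
  -- every bad shift has a large vector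
  have hmem : ∀ d ∈ badC C X q b z, 1 ≤ d ∧ d ≤ X ∧ d % q = b % q ∧
      ∃ N₁ : ℕ, N₁ ≤ X ∧ (X : ℝ) / L ^ C < |czl z N₁ d| := by
    intro d hd
    unfold badC at hd
    rw [mem_filter, mem_Icc, ← hLd] at hd
    exact ⟨hd.1.1, hd.1.2, hd.2.1, hd.2.2⟩
  have hbig : ∀ d ∈ badC C X q b z, ∃ i ∈ range (Tg + 1),
      t ≤ ‖cvd (res 1 0 LA) (FF z r) (min (i * s) X) N (-(d : ℤ))‖ := by
    intro d hd
    obtain ⟨m1, m2, m3, N₁, m4, m5⟩ := hmem d hd
    obtain ⟨j, hj⟩ : ∃ j, j = N₁ / s := ⟨_, rfl⟩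
    have hs1 : 1 ≤ s := by rw [hs]; exact Nat.le_add_left 1 _
    have hjs : j * s ≤ N₁ := by rw [hj]; exact Nat.div_mul_le_self _ _
    have hjT : j < Tg := by
      by_contra hcon
      push Not at hcon
      have : Tg * s ≤ j * s := Nat.mul_le_mul_right _ hcon
      omega
    have hmin : min (j * s) X = j * s := min_eq_left (hjs.trans m4)
    refine ⟨j, mem_range.2 (by omega), ?_⟩
    rw [hmin]
    have k0 := czl_split z s j N₁ d N D hj hs1 (by omega) hDb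
    have k1 := near (N := N) (h := d) (y := j * s) z r 1 0 (by omega)
    have k2 : ∑ n ∈ Icc 1 (j * s), (if n ≡ 0 [MOD 1] then ArithmeticFunction.vonMangoldt n else 0) *
        (lamI ((n : ℤ) + (d : ℤ)) - lamzI z ((n : ℤ) + (d : ℤ))) = czl z (j * s) d := by
      unfold czl
      refine sum_congr rfl fun n _ => ?_
      rw [if_pos (Nat.modEq_one)]
    rw [k2, ← hLd'] at k1
    have k3 : (X : ℝ) / L ^ C = 4 * t := by rw [ht]; field_simp
    rw [k3] at m5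
    linarith
  have hres : ∑ n ∈ Icc 1 N, ‖res 1 0 LA n‖ ^ 2 ≤ N * L' ^ 8 :=
    (sum_le_sum fun n _ => pow_le_pow_left₀ (norm_nonneg _) (norm_res_le _ _ _ _) 2).trans hLAsq
  have hone := one_class (N := N) (X := X) (Q := q) (q₀ := 1) (a₀ := 0) (Tg := Tg) (s := s) (z := z)
    (r := r) hXN ((b : ℕ) : ZMod q) (badC C X q b z)
    (R := (N : ℝ) ^ 2 / L' ^ A' / q * (N * L' ^ 8)) (t := t)
    (by
      intro d hd
      obtain ⟨m1, m2, m3, -⟩ := hmem d hd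
      refine ⟨m2, ?_⟩
      rw [ZMod.natCast_eq_natCast_iff']
      exact m3)
    (fun y hy => (cls_sqd (res 1 0 LA) (FF z r) (by omega) hy (-((b : ℕ) : ZMod q)) _ hgoodq).trans (by gcongr))
    hbig ht0
  refine hone.trans ?_
  have e1 : (N : ℝ) ^ 2 / L' ^ A' / q * (N * L' ^ 8) ≤ 8 * X ^ 3 / (q * L ^ (A + 3 * C + 6)) := by
    have e2 : (N : ℝ) ^ 2 / L' ^ A' / q * (N * L' ^ 8) = (N : ℝ) ^ 3 / (q * L' ^ (A + 3 * C + 6)) := by
      rw [hA', show A + 3 * C + 14 = (A + 3 * C + 6) + 8 by ring, pow_add L' (A + 3 * C + 6) 8]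
      field_simp
    rw [e2, hNr]
    have : (2 * (X : ℝ)) ^ 3 = 8 * X ^ 3 := by ring
    rw [this]
    apply div_le_div_of_nonneg_left (by positivity) (by positivity)
    apply mul_le_mul_of_nonneg_left _ hq0.le
    exact pow_le_pow_left₀ hL0.le hL2 _
  calc ((Tg : ℝ) + 1) * ((N : ℝ) ^ 2 / L' ^ A' / q * (N * L' ^ 8)) / t ^ 2
      ≤ L ^ (C + 4) * (8 * X ^ 3 / (q * L ^ (A + 3 * C + 6))) / t ^ 2 := by gcongr
    _ = X / (q * L ^ A) * (128 / L ^ 2) := by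
        have e3 : L ^ (C + 4) = L ^ C * L ^ 4 := by ring
        have e4 : L ^ (A + 3 * C + 6) = L ^ A * (L ^ C) ^ 3 * L ^ 6 := by
          rw [← pow_mul, ← pow_add, ← pow_add]
          congr 1
          ring
        have hP0 : L ^ C ≠ 0 := by positivity
        have hA0 : L ^ A ≠ 0 := by positivity
        rw [ht, e3, e4]
        clear hms c1 c2 h1 h2 hB' hbig hone hgap htr e1 hgoodq hcS hqS
        generalize L ^ C = P at hP0 ⊢
        generalize L ^ A = P' at hA0 ⊢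
        field_simp
        try ring
    _ ≤ X / (q * L ^ A) * 1 := by
        apply mul_le_mul_of_nonneg_left _ (by positivity)
        rw [div_le_one (by positivity)]
        nlinarith
    _ = _ := mul_one _

end Pool.Agent.T2h83.AM
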