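import Pool.Agent.T2h83.AM.Lin2
import Pool.Agent.H373R2.T7.Tuple2

set_option autoImplicit false

/-! Systems of linear forms with shifts in residue classes of almost all moduli: the asymptotic formula. -/

namespace Pool.Agent.T2h83.AM

open Finset
open Pool.Agent.H373R2.T7 (lamz Vz pz mem_pz Vz_pos Vz_inv_small lamz_nonneg ev_L' ev_log' prod_sub_le avg_coord rhoA
  rhoA_le)

/-- the logarithm on primes -/
noncomputable def lamQ (m : ℕ) : ℝ := if m.Prime then Real.log m else 0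

lemma lamQ_nonneg (m : ℕ) : 0 ≤ lamQ m := by
  unfold lamQ
  split_ifs
  · exact Real.log_natCast_nonneg _
  · exact le_rfl

lemma lamQ_le (m : ℕ) : lamQ m ≤ ArithmeticFunction.vonMangoldt m := by
  unfold lamQ
  split_ifs with h
  · rw [ArithmeticFunction.vonMangoldt_apply_prime h]
  · exact ArithmeticFunction.vonMangoldt_nonneg

/-- the number of the primes `p ≤ N` for which all `c i p + h i` are primes, with weights -/
noncomputable def linCount {k : ℕ} (c h : Fin k → ℕ) (N : ℕ) : ℝ :=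
  ∑ p ∈ (Icc 1 N).filter (fun p : ℕ => p.Prime ∧ ∀ i, (c i * p + h i).Prime),
    Real.log p * ∏ i, Real.log ((c i * p + h i : ℕ) : ℝ)

lemma linCount_eq {k : ℕ} (c h : Fin k → ℕ) (N : ℕ) :
    linCount c h N = ∑ n ∈ Icc 1 N, lamQ n * ∏ i, lamQ (c i * n + h i) := by
  unfold linCount
  rw [sum_filter]
  apply sum_congr rfl
  intro n _
  by_cases h1 : n.Prime ∧ ∀ i, (c i * n + h i).Prime
  · rw [if_pos h1]
    unfold lamQ
    rw [if_pos h1.1]
    congr 1
    apply prod_congr rfl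
    intro i _
    rw [if_pos (h1.2 i)]
  · rw [if_neg h1]
    symm
    rw [not_and_or] at h1
    rcases h1 with h1 | h1
    · unfold lamQ
      rw [if_neg h1, zero_mul]
    · push Not at h1
      obtain ⟨i, hi⟩ := h1
      rw [prod_eq_zero (mem_univ i), mul_zero]
      unfold lamQ
      rw [if_neg hi]

/-- proper prime powers -/
lemma pp_lin (c h N X : ℕ) (hc : 1 ≤ c) (hX : 1 ≤ X) (hN : ∀ n ∈ Icc 1 N, c * n + h ≤ X) :
    ∑ n ∈ Icc 1 N, (ArithmeticFunction.vonMangoldt (c * n + h) - lamQ (c * n + h)) ≤ 2 * √(X : ℝ) * Real.log X := by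
  have h0 := Chebyshev.psi_sub_theta_le (x := (X : ℝ)) (by exact_mod_cast hX)
  rw [Chebyshev.psi_sub_theta_eq_sum_not_prime, Nat.floor_natCast] at h0
  refine le_trans ?_ h0
  have h1 : ∀ n ∈ Icc 1 N, ArithmeticFunction.vonMangoldt (c * n + h) - lamQ (c * n + h) =
      if ¬ (c * n + h).Prime then ArithmeticFunction.vonMangoldt (c * n + h) else 0 := by
    intro n _
    unfold lamQ
    by_cases h3 : (c * n + h).Prime
    · rw [if_pos h3, if_neg (fun h => h h3), ArithmeticFunction.vonMangoldt_apply_prime h3, sub_self]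
    · rw [if_neg h3, if_pos h3, sub_zero]
  rw [sum_congr rfl h1, ← sum_filter]
  have h2 : ∑ n ∈ (Icc 1 N).filter (fun n : ℕ => ¬ (c * n + h).Prime), ArithmeticFunction.vonMangoldt (c * n + h) =
      ∑ j ∈ ((Icc 1 N).filter (fun n : ℕ => ¬ (c * n + h).Prime)).image (fun n : ℕ => c * n + h),
      ArithmeticFunction.vonMangoldt j := by
    rw [sum_image]
    intro n _ m _ hnm
    simp only at hnm
    exact Nat.eq_of_mul_eq_mul_left (by omega : 0 < c) (by omega)
  rw [h2]
  apply sum_le_sum_of_subset_of_nonneg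
  · intro j hj
    rw [mem_image] at hj
    obtain ⟨n, hn, rfl⟩ := hj
    rw [mem_filter] at hn
    have h3 := hN n hn.1
    have h4 := (mem_Icc.1 hn.1).1
    have h5 : 1 ≤ c * n := Nat.mul_pos (by omega) (by omega)
    rw [mem_filter, mem_Ioc]
    exact ⟨⟨by omega, h3⟩, hn.2⟩
  · intro _ _ _
    exact ArithmeticFunction.vonMangoldt_nonneg

lemma toPrimesL {k : ℕ} (c h : Fin k → ℕ) (hc : ∀ i, 1 ≤ c i) (N X : ℕ) (hN : 1 ≤ N) (hX : N ≤ X)
    (hh : ∀ i, ∀ n ∈ Icc 1 N, c i * n + h i ≤ X) (M : ℝ) (hM : 1 ≤ M) (hXM : Real.log X ≤ M) :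
    |∑ n ∈ Icc 1 N, ArithmeticFunction.vonMangoldt n * ∏ i, ArithmeticFunction.vonMangoldt (c i * n + h i) - linCount c h N| ≤
      ((k : ℝ) + 1) * M ^ (k + 1) * (2 * √(X : ℝ) * Real.log X) := by
  have hX1 : 1 ≤ X := hN.trans hX
  have hM0 : 0 ≤ M := by linarith
  rw [linCount_eq, ← sum_sub_distrib]
  have hlog : 0 ≤ Real.log X := Real.log_natCast_nonneg X
  have hvl : ∀ m : ℕ, 1 ≤ m → m ≤ X → ArithmeticFunction.vonMangoldt m ≤ M := by
    intro m h1 h2
    exact (ArithmeticFunction.vonMangoldt_le_log.trans (Real.log_le_log (by exact_mod_cast h1) (by exact_mod_cast h2))).trans hXM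
  have hI : ∀ i, ∀ n ∈ Icc 1 N, ArithmeticFunction.vonMangoldt (c i * n + h i) ≤ M := by
    intro i n hn
    refine hvl _ ?_ (hh i n hn)
    have : 1 ≤ c i * n := Nat.mul_pos (by have := hc i; omega) (by rw [mem_Icc] at hn; omega)
    omega
  have hI0 : ∀ n ∈ Icc 1 N, ArithmeticFunction.vonMangoldt n ≤ M := by
    intro n hn
    rw [mem_Icc] at hn
    exact hvl _ hn.1 (hn.2.trans hX)
  have hpt : ∀ n ∈ Icc 1 N, |ArithmeticFunction.vonMangoldt n * ∏ i, ArithmeticFunction.vonMangoldt (c i * n + h i) -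
      lamQ n * ∏ i, lamQ (c i * n + h i)| ≤
      M ^ (k + 1) * ((ArithmeticFunction.vonMangoldt n - lamQ n) +
        ∑ i, (ArithmeticFunction.vonMangoldt (c i * n + h i) - lamQ (c i * n + h i))) := by
    intro n hn
    obtain ⟨h0, h1⟩ := prod_sub_le univ (fun i => ArithmeticFunction.vonMangoldt (c i * n + h i)) (fun i => lamQ (c i * n + h i))
      M hM (fun i _ => lamQ_nonneg _) (fun i _ => lamQ_le _) (fun i _ => hI i n hn)
    rw [card_univ, Fintype.card_fin] at h1
    have hP0 : 0 ≤ ∏ i, ArithmeticFunction.vonMangoldt (c i * n + h i) :=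
      prod_nonneg fun i _ => ArithmeticFunction.vonMangoldt_nonneg
    have hP1 : ∏ i, ArithmeticFunction.vonMangoldt (c i * n + h i) ≤ M ^ k := by
      calc ∏ i, ArithmeticFunction.vonMangoldt (c i * n + h i) ≤ ∏ _i : Fin k, M :=
            prod_le_prod (fun i _ => ArithmeticFunction.vonMangoldt_nonneg) (fun i _ => hI i n hn)
        _ = M ^ k := by rw [prod_const, card_univ, Fintype.card_fin]
    have h3 := lamQ_nonneg n
    have h4 := lamQ_le n
    have h5 := hI0 n hn
    have h6 : 0 ≤ ∑ i, (ArithmeticFunction.vonMangoldt (c i * n + h i) - lamQ (c i * n + h i)) :=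
      sum_nonneg fun i _ => by linarith [lamQ_le (c i * n + h i)]
    have e : ArithmeticFunction.vonMangoldt n * ∏ i, ArithmeticFunction.vonMangoldt (c i * n + h i) - lamQ n * ∏ i, lamQ (c i * n + h i) =
        (ArithmeticFunction.vonMangoldt n - lamQ n) * ∏ i, ArithmeticFunction.vonMangoldt (c i * n + h i) +
        lamQ n * (∏ i, ArithmeticFunction.vonMangoldt (c i * n + h i) - ∏ i, lamQ (c i * n + h i)) := by ring
    rw [e, abs_of_nonneg (add_nonneg (mul_nonneg (by linarith) hP0) (mul_nonneg h3 h0))]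
    have h7 : (ArithmeticFunction.vonMangoldt n - lamQ n) * ∏ i, ArithmeticFunction.vonMangoldt (c i * n + h i) ≤
        (ArithmeticFunction.vonMangoldt n - lamQ n) * M ^ (k + 1) := by
      apply mul_le_mul_of_nonneg_left _ (by linarith)
      exact hP1.trans (pow_le_pow_right₀ hM (by omega))
    have h8 : lamQ n * (∏ i, ArithmeticFunction.vonMangoldt (c i * n + h i) - ∏ i, lamQ (c i * n + h i)) ≤
        M * (M ^ k * ∑ i, (ArithmeticFunction.vonMangoldt (c i * n + h i) - lamQ (c i * n + h i))) :=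
      mul_le_mul (h4.trans h5) h1 h0 hM0
    calc _ ≤ (ArithmeticFunction.vonMangoldt n - lamQ n) * M ^ (k + 1) +
          M * (M ^ k * ∑ i, (ArithmeticFunction.vonMangoldt (c i * n + h i) - lamQ (c i * n + h i))) := add_le_add h7 h8
      _ = _ := by ring
  refine (abs_sum_le_sum_abs _ _).trans ((sum_le_sum hpt).trans ?_)
  rw [← mul_sum, sum_add_distrib, sum_comm]
  have g0 := pp_lin 1 0 N X le_rfl hX1 (by
    intro n hn
    rw [mem_Icc] at hn
    omega)
  simp only [add_zero, one_mul] at g0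
  have g1 : ∀ i ∈ (univ : Finset (Fin k)), ∑ n ∈ Icc 1 N, (ArithmeticFunction.vonMangoldt (c i * n + h i) - lamQ (c i * n + h i)) ≤
      2 * √(X : ℝ) * Real.log X :=
    fun i _ => pp_lin (c i) (h i) N X (hc i) hX1 (hh i)
  have g2 := sum_le_sum g1
  rw [sum_const, card_univ, Fintype.card_fin, nsmul_eq_mul] at g2
  calc M ^ (k + 1) * (∑ n ∈ Icc 1 N, (ArithmeticFunction.vonMangoldt n - lamQ n) +
        ∑ i, ∑ n ∈ Icc 1 N, (ArithmeticFunction.vonMangoldt (c i * n + h i) - lamQ (c i * n + h i)))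
      ≤ M ^ (k + 1) * (2 * √(X : ℝ) * Real.log X + k * (2 * √(X : ℝ) * Real.log X)) := by
        apply mul_le_mul_of_nonneg_left _ (by positivity)
        exact add_le_add g0 g2
    _ = _ := by ring

lemma sgL_le {k : ℕ} (c h : Fin k → ℕ) (z : ℕ) (V : ℝ) (hV : (Vz z)⁻¹ ≤ V) : sgL c h z ≤ V ^ k := by
  have hV0 : 0 ≤ (Vz z)⁻¹ := (inv_pos.2 (Vz_pos z)).le
  rw [sgL_eq]
  have hh : ∀ p ∈ pz z, 0 ≤ 1 - (rhoA (QL c h) p : ℝ) / (p - 1 : ℝ) ∧ 1 - (rhoA (QL c h) p : ℝ) / (p - 1 : ℝ) ≤ 1 := by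
    intro p hp
    have hp2 : (2 : ℝ) ≤ p := by exact_mod_cast (mem_pz.1 hp).2.two_le
    have h5 := rhoA_le (QL c h) p
    have h6 : (rhoA (QL c h) p : ℝ) ≤ ((p - 1 : ℕ) : ℝ) := by exact_mod_cast h5
    rw [Nat.cast_sub (mem_pz.1 hp).2.one_le] at h6
    push_cast at h6
    have h7 : (rhoA (QL c h) p : ℝ) / (p - 1 : ℝ) ≤ 1 := by rw [div_le_one (by linarith)]; exact h6
    have h8 : 0 ≤ (rhoA (QL c h) p : ℝ) / (p - 1 : ℝ) := div_nonneg (Nat.cast_nonneg _) (by linarith)
    constructor <;> linarith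
  have h1 : ∏ p ∈ pz z, (1 - (rhoA (QL c h) p : ℝ) / (p - 1 : ℝ)) ≤ 1 :=
    prod_le_one (fun p hp => (hh p hp).1) (fun p hp => (hh p hp).2)
  have h2 : 0 ≤ ∏ p ∈ pz z, (1 - (rhoA (QL c h) p : ℝ) / (p - 1 : ℝ)) := prod_nonneg fun p hp => (hh p hp).1
  calc ((Vz z)⁻¹) ^ k * ∏ p ∈ pz z, (1 - (rhoA (QL c h) p : ℝ) / (p - 1 : ℝ)) ≤ V ^ k * 1 :=
        mul_le_mul (pow_le_pow_left₀ hV0 hV k) h1 h2 (pow_nonneg (hV0.trans hV) k)
    _ = _ := mul_one _

/-- few vectors satisfy a condition which allows at most one value of a coordinate -/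
lemma few_coord {k J : ℕ} (i : Fin k) (R : (Fin k → ℕ) → Prop) [DecidablePred R]
    (hR : ∀ m, ∀ v ∈ Icc 1 J, ∀ w ∈ Icc 1 J, R (Function.update m i v) → R (Function.update m i w) → v = w) :
    (J : ℝ) * (((Fintype.piFinset (fun _ : Fin k => Icc 1 J)).filter R).card : ℝ) ≤ (J : ℝ) ^ k := by
  have h1 := avg_coord (fun _ : Fin k => Icc 1 J) i (fun m => if R m then (1 : ℝ) else 0)
  have h2 : ∑ m ∈ Fintype.piFinset (fun _ : Fin k => Icc 1 J), (if R m then (1 : ℝ) else 0) =
      (((Fintype.piFinset (fun _ : Fin k => Icc 1 J)).filter R).card : ℝ) := by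
    rw [← sum_filter, sum_const, nsmul_eq_mul, mul_one]
  rw [h2, Nat.card_Icc, Nat.add_sub_cancel] at h1
  rw [← h1]
  calc ∑ m ∈ Fintype.piFinset (fun _ : Fin k => Icc 1 J), ∑ v ∈ Icc 1 J, (if R (Function.update m i v) then (1 : ℝ) else 0)
      ≤ ∑ _m ∈ Fintype.piFinset (fun _ : Fin k => Icc 1 J), (1 : ℝ) := by
        refine sum_le_sum fun m _ => ?_
        rw [← sum_filter, sum_const, nsmul_eq_mul, mul_one]
        have h3 : ((Icc 1 J).filter (fun v => R (Function.update m i v))).card ≤ 1 := by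
          rw [card_le_one]
          intro a ha b hb
          rw [mem_filter] at ha hb
          exact hR m a ha.1 b hb.1 ha.2 hb.2
        exact_mod_cast h3
    _ = _ := by
        rw [sum_const, nsmul_eq_mul, mul_one, Fintype.card_piFinset]
        push_cast
        rw [prod_const, card_univ, Fintype.card_fin, Nat.card_Icc, Nat.add_sub_cancel]

/-- the asymptotic formula holds for the system -/
def GoodL {k : ℕ} (U N : ℕ) (c h : Fin k → ℕ) : Prop :=
  NonDeg c h ∧ ∃ S : ℝ, Filter.Tendsto (fun z => sgL c h z) Filter.atTop (nhds S) ∧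
    |linCount c h N - S * N| ≤ N / Real.log N ^ U

open Classical in
/-- the degenerate vectors are few -/
lemma few_deg {k J q : ℕ} (c r : Fin k → ℕ) (hc : ∀ i, 1 ≤ c i) (hq : 1 ≤ q) :
    (J : ℝ) * (((Fintype.piFinset (fun _ : Fin k => Icc 1 J)).filter
      (fun m => ¬ NonDeg c (fun i => hv (r i) q (m i)))).card : ℝ) ≤ ((k : ℝ) + k * k) * (J : ℝ) ^ k := by
  have hinj : ∀ (ρ v w : ℕ), v ∈ Icc 1 J → w ∈ Icc 1 J → hv ρ q v = hv ρ q w → v = w := by
    intro ρ v w hv1 hw1 h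
    rw [mem_Icc] at hv1 hw1
    unfold hv at h
    have h4 : q * (v - 1) = q * (w - 1) := by omega
    have h5 := Nat.eq_of_mul_eq_mul_left (by omega : 0 < q) h4
    omega
  have hsub : (Fintype.piFinset (fun _ : Fin k => Icc 1 J)).filter (fun m => ¬ NonDeg c (fun i => hv (r i) q (m i))) ⊆
      (univ.biUnion fun i => (Fintype.piFinset (fun _ : Fin k => Icc 1 J)).filter (fun m => hv (r i) q (m i) = 0)) ∪
      (univ.filter (fun t : Fin k × Fin k => t.1 ≠ t.2)).biUnion fun t =>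
        (Fintype.piFinset (fun _ : Fin k => Icc 1 J)).filter (fun m =>
          c t.1 * hv (r t.2) q (m t.2) = c t.2 * hv (r t.1) q (m t.1)) := by
    intro m hm
    rw [mem_filter] at hm
    rw [mem_union, mem_biUnion, mem_biUnion]
    by_contra hcon
    rw [not_or] at hcon
    push Not at hcon
    apply hm.2
    constructor
    · intro i
      have h1 := hcon.1 i (mem_univ i)
      rw [mem_filter, not_and] at h1
      have := h1 hm.1
      omega
    · intro i j hij h5
      have h1 := hcon.2 (i, j) (by simpa using hij)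
      rw [mem_filter, not_and] at h1
      apply h1 hm.1
      exact_mod_cast h5
  have hJ0 : (0 : ℝ) ≤ J := Nat.cast_nonneg _
  have h1 : ∀ i ∈ (univ : Finset (Fin k)), (J : ℝ) *
      (((Fintype.piFinset (fun _ : Fin k => Icc 1 J)).filter (fun m => hv (r i) q (m i) = 0)).card : ℝ) ≤ (J : ℝ) ^ k := by
    intro i _
    refine few_coord (J := J) i (fun m => hv (r i) q (m i) = 0) ?_
    intro m v hv1 w hw1 h2 h3
    simp only [Function.update_self] at h2 h3
    exact hinj (r i) v w hv1 hw1 (h2.trans h3.symm)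
  have h2 : ∀ t ∈ univ.filter (fun t : Fin k × Fin k => t.1 ≠ t.2), (J : ℝ) *
      (((Fintype.piFinset (fun _ : Fin k => Icc 1 J)).filter (fun m =>
          c t.1 * hv (r t.2) q (m t.2) = c t.2 * hv (r t.1) q (m t.1))).card : ℝ) ≤ (J : ℝ) ^ k := by
    intro t ht
    rw [mem_filter] at ht
    refine few_coord (J := J) t.1 (fun m => c t.1 * hv (r t.2) q (m t.2) = c t.2 * hv (r t.1) q (m t.1)) ?_
    intro m v hv1 w hw1 h2 h3
    simp only [Function.update_self, Function.update_of_ne ht.2.symm] at h2 h3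
    have h4 : c t.2 * hv (r t.1) q v = c t.2 * hv (r t.1) q w := h2.symm.trans h3
    exact hinj (r t.1) v w hv1 hw1 (Nat.eq_of_mul_eq_mul_left (by have := hc t.2; omega) h4)
  have h3 := card_le_card hsub
  have h4 := h3.trans (card_union_le _ _)
  have h5 := h4.trans (add_le_add card_biUnion_le card_biUnion_le)
  have h6 : (((Fintype.piFinset (fun _ : Fin k => Icc 1 J)).filter
      (fun m => ¬ NonDeg c (fun i => hv (r i) q (m i)))).card : ℝ) ≤
      ∑ i, (((Fintype.piFinset (fun _ : Fin k => Icc 1 J)).filter (fun m => hv (r i) q (m i) = 0)).card : ℝ) +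
      ∑ t ∈ univ.filter (fun t : Fin k × Fin k => t.1 ≠ t.2), (((Fintype.piFinset (fun _ : Fin k => Icc 1 J)).filter (fun m =>
          c t.1 * hv (r t.2) q (m t.2) = c t.2 * hv (r t.1) q (m t.1))).card : ℝ) := by
    exact_mod_cast h5
  calc (J : ℝ) * _ ≤ J * (∑ i, (((Fintype.piFinset (fun _ : Fin k => Icc 1 J)).filter (fun m => hv (r i) q (m i) = 0)).card : ℝ) +
      ∑ t ∈ univ.filter (fun t : Fin k × Fin k => t.1 ≠ t.2), (((Fintype.piFinset (fun _ : Fin k => Icc 1 J)).filter (fun m =>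
          c t.1 * hv (r t.2) q (m t.2) = c t.2 * hv (r t.1) q (m t.1))).card : ℝ)) := mul_le_mul_of_nonneg_left h6 hJ0
    _ ≤ ∑ _i : Fin k, (J : ℝ) ^ k + ∑ _t ∈ univ.filter (fun t : Fin k × Fin k => t.1 ≠ t.2), (J : ℝ) ^ k := by
        rw [mul_add, mul_sum, mul_sum]
        exact add_le_add (sum_le_sum h1) (sum_le_sum h2)
    _ ≤ ((k : ℝ) + k * k) * (J : ℝ) ^ k := by
        rw [sum_const, sum_const, nsmul_eq_mul, nsmul_eq_mul, card_univ, Fintype.card_fin, add_mul]
        apply add_le_add le_rfl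
        apply mul_le_mul_of_nonneg_right _ (by positivity)
        have h7 : (univ.filter (fun t : Fin k × Fin k => t.1 ≠ t.2)).card ≤ k * k := by
          refine (card_filter_le _ _).trans ?_
          rw [card_univ, Fintype.card_prod, Fintype.card_fin]
        exact_mod_cast h7

open Classical in
/-- **systems of linear forms**: for almost all moduli, for all vectors of residue classes, the asymptotic formula holds
for almost all vectors of shifts in these classes -/
theorem lin_main {k : ℕ} (c : Fin k → ℕ) (hc : ∀ i, 1 ≤ c i) (A U : ℕ) : ∃ B N₀ : ℕ, ∀ N : ℕ, N₀ ≤ N → ∀ Q : ℕ,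
    (Q : ℝ) * Real.log N ^ B ≤ N → ∃ S : Finset ℕ, (S.card : ℝ) ≤ Q / Real.log N ^ A ∧
      ∀ q ∈ Ioc Q (2 * Q), q ∉ S → ∀ r : Fin k → ℕ, (∀ i, r i ≤ N) →
      (((Fintype.piFinset (fun _ : Fin k => Icc 1 (N / q + 1))).filter
        (fun m => ¬ GoodL U N c (fun i => hv (r i) q (m i)))).card : ℝ) ≤
        ((N / q + 1 : ℕ) : ℝ) ^ k / Real.log N ^ A := by
  obtain ⟨C, hC⟩ : ∃ C, C = 2 + ∑ i, c i := ⟨_, rfl⟩
  obtain ⟨B₁, hB₁⟩ := lin_diff c hc A (U + A + 4)
  obtain ⟨E1, hE1⟩ : ∃ E1, E1 = max B₁ (U + k + 6) := ⟨_, rfl⟩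
  obtain ⟨N₁, h1⟩ := hB₁ (E1 + 1)
  obtain ⟨N₂, h2⟩ := main_L c hc (E1 + 1) (U + 2)
  obtain ⟨N₃, h3⟩ := Vz_inv_small (E1 + 1)
  obtain ⟨N₄, h4⟩ := ev_log' (U + k + 5) 1
  obtain ⟨N₅, h5⟩ := ev_L' (Real.log C + 100 + 4 * (((k : ℝ) + 1) * 2 ^ (k + 1) * (4 * C)) + C +
    4 * ((k : ℝ) + k * k) + 3 * (k + 1) + (((k + 1 : ℕ) : ℝ) ^ 2 + 4 * ((k + 1 : ℕ) : ℝ) * ((k + k * k) * (4 * (Real.log C + 1)))) + 20)
  refine ⟨B₁ + A + 5, N₁ + N₂ + N₃ + N₄ + N₅ + 3, fun N hN Q hQ => ?_⟩
  have hN1 : 1 ≤ N := by omega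
  have hN0 : (0 : ℝ) < N := by exact_mod_cast hN1
  have c1 := h1 N (by omega)
  have c2 := h2 N (by omega)
  have c3 := h3 N (by omega)
  have c4 := h4 N (by omega)
  have c5 := h5 N (by omega)
  rw [one_mul] at c4
  have hC2 : (2 : ℝ) ≤ C := by exact_mod_cast (by omega : 2 ≤ C)
  have hlC : 0 ≤ Real.log C := Real.log_natCast_nonneg C
  obtain ⟨X, hX⟩ : ∃ X, X = C * N := ⟨_, rfl⟩
  have hXr : (X : ℝ) = C * N := by rw [hX]; push_cast; ring
  have hlogX' : Real.log X = Real.log C + Real.log N := by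
    rw [hXr, Real.log_mul (by linarith) hN0.ne']
  unfold GoodL
  obtain ⟨L, hLd⟩ : ∃ L, L = Real.log (N : ℝ) := ⟨_, rfl⟩
  rw [← hLd] at c1 c2 c3 c4 c5 hlogX' hQ ⊢
  have hk0 : (0 : ℝ) ≤ k := Nat.cast_nonneg _
  have p1 : 0 ≤ 4 * (((k : ℝ) + 1) * 2 ^ (k + 1) * (4 * C)) := by positivity
  have p2 : 0 ≤ 4 * ((k : ℝ) + k * k) := by positivity
  have p3 : 0 ≤ (((k + 1 : ℕ) : ℝ) ^ 2 + 4 * ((k + 1 : ℕ) : ℝ) * ((k + k * k) * (4 * (Real.log C + 1)))) := by positivity
  have hL100 : 100 ≤ L := by linarith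
  have hL0 : 0 < L := by linarith
  have hL1 : 1 ≤ L := by linarith
  -- the parameter `z`
  obtain ⟨z, hz⟩ : ∃ z, z = ⌈L ^ E1⌉₊ := ⟨_, rfl⟩
  have hzlo : L ^ E1 ≤ z := by rw [hz]; exact Nat.le_ceil _
  have hL1B : 1 ≤ L ^ E1 := one_le_pow₀ hL1
  have hzhi : (z : ℝ) ≤ L ^ (E1 + 1) := by
    have := Nat.ceil_lt_add_one (show 0 ≤ L ^ E1 by positivity)
    rw [← hz] at this
    calc (z : ℝ) ≤ L ^ E1 + 1 := this.le
      _ ≤ L ^ E1 + L ^ E1 := by linarith
      _ = 2 * L ^ E1 := by ring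
      _ ≤ L * L ^ E1 := mul_le_mul_of_nonneg_right (by linarith) (by positivity)
      _ = L ^ (E1 + 1) := by ring
  have hz1 : 1 ≤ z := by
    have : (1 : ℝ) ≤ z := hL1B.trans hzlo
    exact_mod_cast this
  have hz0 : (0 : ℝ) < z := by linarith
  have hV := c3 z hz1 hzhi
  obtain ⟨S, hS1, hS2⟩ := c1 z ((pow_le_pow_right₀ hL1 (by rw [hE1]; exact le_max_left _ _)).trans hzlo) hzhi Q (by
    refine le_trans ?_ hQ
    exact mul_le_mul_of_nonneg_left (pow_le_pow_right₀ hL1 (by omega)) (Nat.cast_nonneg _))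
  refine ⟨S, hS1, fun q hqQ hqS r hr => ?_⟩
  have hd := hS2 q hqQ hqS r hr
  have hq1 : 1 ≤ q := by rw [mem_Ioc] at hqQ; omega
  have hq0 : (0 : ℝ) < q := by exact_mod_cast hq1
  obtain ⟨J, hJ⟩ : ∃ J, J = N / q + 1 := ⟨_, rfl⟩
  rw [← hJ] at hd ⊢
  have hJ1 : 1 ≤ J := by rw [hJ]; exact Nat.succ_pos _
  have hJ0 : (0 : ℝ) < J := by exact_mod_cast hJ1
  have hNq : (N : ℝ) / q ≤ J := by
    rw [hJ, div_le_iff₀ hq0]
    have h1 := Nat.lt_div_mul_add (a := N) (b := q) (by omega)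
    have h2 : N ≤ (N / q + 1) * q := by nlinarith
    exact_mod_cast h2
  have hJbig : L ^ (A + 4) ≤ J := by
    refine le_trans ?_ hNq
    rw [le_div_iff₀ hq0]
    rw [mem_Ioc] at hqQ
    have e1 : (q : ℝ) ≤ 2 * Q := by exact_mod_cast hqQ.2
    calc L ^ (A + 4) * q ≤ L ^ (A + 4) * (2 * Q) := mul_le_mul_of_nonneg_left e1 (by positivity)
      _ = Q * (2 * L ^ (A + 4)) := by ring
      _ ≤ Q * (L * L ^ (A + 4)) := by
          apply mul_le_mul_of_nonneg_left _ (Nat.cast_nonneg _)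
          exact mul_le_mul_of_nonneg_right (by linarith) (by positivity)
      _ = Q * L ^ (A + 5) := by ring
      _ ≤ Q * L ^ (B₁ + A + 5) := mul_le_mul_of_nonneg_left (pow_le_pow_right₀ hL1 (by omega)) (Nat.cast_nonneg _)
      _ ≤ N := hQ
  -- sizes
  have hqN : q ≤ N := by
    by_contra hcon
    rw [not_le] at hcon
    have : N / q = 0 := Nat.div_eq_of_lt hcon
    rw [this] at hJ
    rw [hJ] at hJbig
    have e2 : (2 : ℝ) ≤ L ^ (A + 4) := by
      calc (2 : ℝ) ≤ L ^ 1 := by rw [pow_one]; linarith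
        _ ≤ _ := pow_le_pow_right₀ hL1 (by omega)
    push_cast at hJbig
    linarith
  have hss : √(N : ℝ) * √(N : ℝ) = N := Real.mul_self_sqrt hN0.le
  have hs0 : 0 < √(N : ℝ) := Real.sqrt_pos.2 hN0
  have hlogX : Real.log X ≤ 2 * L := by rw [hlogX']; linarith
  have hlogX0 : 0 ≤ Real.log X := Real.log_natCast_nonneg X
  have hsX : √(X : ℝ) ≤ C * √N := by
    rw [hXr, Real.sqrt_mul (by linarith)]
    apply mul_le_mul_of_nonneg_right _ hs0.le
    rw [Real.sqrt_le_left (by linarith)]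
    nlinarith
  obtain ⟨T, hT⟩ : ∃ T, T = (N : ℝ) / L ^ (U + 1) := ⟨_, rfl⟩
  have hT0 : 0 < T := by rw [hT]; positivity
  have hTL : T * L = N / L ^ U := by rw [hT, pow_succ]; field_simp
  have hT2 : (N : ℝ) / L ^ (U + 2) ≤ T := by
    rw [hT]
    exact div_le_div_of_nonneg_left hN0.le (by positivity) (pow_le_pow_right₀ hL1 (by omega))
  have hsT : √(N : ℝ) * L ^ (k + 3) ≤ T := by
    rw [hT, le_div_iff₀ (by positivity)]
    calc √(N : ℝ) * L ^ (k + 3) * L ^ (U + 1) = √(N : ℝ) * L ^ (U + k + 4) := by rw [mul_assoc, ← pow_add]; congr 2; ring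
      _ ≤ √(N : ℝ) * L ^ (U + k + 5) := mul_le_mul_of_nonneg_left (pow_le_pow_right₀ hL1 (by omega)) hs0.le
      _ ≤ √(N : ℝ) * √(N : ℝ) := mul_le_mul_of_nonneg_left c4 hs0.le
      _ = N := hss
  have hhle : ∀ i, ∀ v ∈ Icc 1 J, hv (r i) q v ≤ 2 * N := by
    intro i v hv'
    rw [mem_Icc] at hv'
    unfold hv
    have h1 : q * (v - 1) ≤ q * (N / q) := Nat.mul_le_mul_left q (by omega)
    have h2 := Nat.mul_div_le N q
    have := hr i
    omega
  have hcC : ∀ i, c i + 2 ≤ C := by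
    intro i
    have := single_le_sum (f := c) (s := univ) (fun _ _ => Nat.zero_le _) (mem_univ i)
    omega
  -- the deterministic part
  have hdet : ∀ m ∈ Fintype.piFinset (fun _ : Fin k => Icc 1 J), NonDeg c (fun i => hv (r i) q (m i)) →
      |∑ n ∈ Icc 1 N, ArithmeticFunction.vonMangoldt n *
        (∏ i, ArithmeticFunction.vonMangoldt (c i * n + hv (r i) q (m i)) - ∏ i, lamz z (c i * n + hv (r i) q (m i)))| ≤
        (1 / 4) * (N / L ^ U) →
      ∃ Sg : ℝ, Filter.Tendsto (fun z => sgL c (fun i => hv (r i) q (m i)) z) Filter.atTop (nhds Sg) ∧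
        |linCount c (fun i => hv (r i) q (m i)) N - Sg * N| ≤ N / L ^ U := by
    intro m hm hnd hD
    rw [Fintype.mem_piFinset] at hm
    obtain ⟨h, hh⟩ : ∃ h : Fin k → ℕ, h = fun i => hv (r i) q (m i) := ⟨_, rfl⟩
    have hhi : ∀ i, hv (r i) q (m i) = h i := fun i => by rw [hh]
    simp only [hhi] at hD hnd ⊢
    have hh2 : ∀ i, h i ≤ 2 * N := fun i => by rw [hh]; exact hhle i _ (hm i)
    have hnd' : NonDeg c h := by
      have : (fun i => h i) = h := rfl
      rwa [this] at hnd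
    obtain ⟨Sg, g1, g2⟩ := limL c h hc hnd'
    refine ⟨Sg, g1, ?_⟩
    have e1 := toPrimesL c h hc N X hN1 (by rw [hX]; exact Nat.le_mul_of_pos_left _ (by omega)) (fun i n hn => by
      rw [mem_Icc] at hn
      have q1 : c i * n ≤ c i * N := Nat.mul_le_mul_left _ hn.2
      have q2 := hh2 i
      have q3 : (c i + 2) * N ≤ C * N := Nat.mul_le_mul_right _ (hcC i)
      have q4 : (c i + 2) * N = c i * N + 2 * N := by ring
      omega) (2 * L) (by linarith) hlogX
    have e4 := c2 z hz1 hzhi h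
    -- the singular series
    have hbad := card_badL c h (C * (2 * N)) (fun i => (hh2 i).trans (Nat.le_mul_of_pos_left _ (by omega)))
      (fun i j => Nat.mul_le_mul (by have := hcC i; omega) (hh2 j))
    have hK : KL c h ≤ L ^ 2 := by
      have q1 : (Nat.log 2 (C * (2 * N)) : ℝ) ≤ 4 * (Real.log C + 1) * L := by
        have q2 : (Nat.log 2 (C * (2 * N)) : ℝ) ≤ Real.log ((C * (2 * N) : ℕ) : ℝ) / Real.log 2 := by
          have := Real.natLog_le_logb (C * (2 * N)) 2
          simpa [Real.logb] using this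
        have q3 : Real.log ((C * (2 * N) : ℕ) : ℝ) = Real.log C + (Real.log 2 + L) := by
          push_cast
          rw [Real.log_mul (by linarith) (by positivity), Real.log_mul (by norm_num) hN0.ne', hLd]
        rw [q3] at q2
        refine q2.trans ?_
        have q4 := Real.log_two_gt_d9
        have q5 := Real.log_two_lt_d9
        rw [div_le_iff₀ (by linarith)]
        have q6 : 4 * (Real.log C + 1) * L * (1 / 2) ≤ 4 * (Real.log C + 1) * L * Real.log 2 := by
          apply mul_le_mul_of_nonneg_left (by linarith) (by positivity)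
        have q7 : Real.log C ≤ Real.log C * L := le_mul_of_one_le_right hlC hL1
        nlinarith
      have q8 : ((badL c h).card : ℝ) ≤ (k + k * k) * (4 * (Real.log C + 1)) * L := by
        have q9 : ((badL c h).card : ℝ) ≤ (k + k * k) * (Nat.log 2 (C * (2 * N)) : ℝ) := by exact_mod_cast hbad
        refine q9.trans ?_
        rw [mul_assoc ((k : ℝ) + k * k)]
        exact mul_le_mul_of_nonneg_left q1 (by positivity)
      have q10 : KL c h ≤ (((k + 1 : ℕ) : ℝ) ^ 2 + 4 * ((k + 1 : ℕ) : ℝ) * ((k + k * k) * (4 * (Real.log C + 1)))) * L := by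
        unfold KL
        have q11 : ((k + 1 : ℕ) : ℝ) ^ 2 ≤ ((k + 1 : ℕ) : ℝ) ^ 2 * L := le_mul_of_one_le_right (by positivity) hL1
        have q12 : 4 * ((k + 1 : ℕ) : ℝ) * ((badL c h).card : ℝ) ≤
            4 * ((k + 1 : ℕ) : ℝ) * ((k + k * k) * (4 * (Real.log C + 1)) * L) :=
          mul_le_mul_of_nonneg_left q8 (by positivity)
        linarith
      refine q10.trans ?_
      rw [sq L]
      apply mul_le_mul_of_nonneg_right _ hL0.le
      linarith
    have hKz : KL c h ≤ z := by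
      refine hK.trans (le_trans ?_ hzlo)
      exact pow_le_pow_right₀ hL1 (by rw [hE1]; exact le_trans (by omega) (le_max_right _ _))
    have hLz : L ≤ z := by
      refine le_trans ?_ hzlo
      calc L = L ^ 1 := (pow_one L).symm
        _ ≤ L ^ E1 := pow_le_pow_right₀ hL1 (by rw [hE1]; exact le_trans (by omega) (le_max_right _ _))
    have g3 := g2 z (by
      have : ((3 * (k + 1) : ℕ) : ℝ) ≤ z := by
        push_cast
        linarith
      exact_mod_cast this) (fun i => by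
      have q1 : ((c i : ℕ) : ℝ) ≤ C := by exact_mod_cast (by have := hcC i; omega : c i ≤ C)
      have : ((c i : ℕ) : ℝ) ≤ z := by linarith
      exact_mod_cast this) hKz
    have hsgle : sgL c h z ≤ L ^ k := sgL_le c h z L hV
    have hsg0 := sgL_nonneg c h z
    have g4 : |Sg - sgL c h z| ≤ 1 / L ^ (U + 2) := by
      refine g3.trans ?_
      have hzU : L ^ (U + k + 4) ≤ z :=
        le_trans (pow_le_pow_right₀ hL1 (by rw [hE1]; exact le_trans (by omega) (le_max_right _ _))) hzlo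
      have hKL0 : 0 ≤ KL c h := by unfold KL; positivity
      calc sgL c h z * (KL c h / z) ≤ L ^ k * (L ^ 2 / L ^ (U + k + 4)) := by
            apply mul_le_mul hsgle _ (by positivity) (by positivity)
            exact div_le_div₀ (by positivity) hK (by positivity) hzU
        _ = 1 / L ^ (U + 2) := by
            rw [show U + k + 4 = (U + 2) + k + 2 by ring, pow_add, pow_add L (U + 2) k]
            field_simp
    -- together
    have e2 : ∑ n ∈ Icc 1 N, ArithmeticFunction.vonMangoldt n *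
        (∏ i, ArithmeticFunction.vonMangoldt (c i * n + h i) - ∏ i, lamz z (c i * n + h i)) =
        ∑ n ∈ Icc 1 N, ArithmeticFunction.vonMangoldt n * ∏ i, ArithmeticFunction.vonMangoldt (c i * n + h i) -
        ∑ n ∈ Icc 1 N, ArithmeticFunction.vonMangoldt n * ∏ i, lamz z (c i * n + h i) := by
      rw [← sum_sub_distrib]
      apply sum_congr rfl
      intro n _
      rw [mul_sub]
    rw [e2] at hD
    have g5 : ((k : ℝ) + 1) * (2 * L) ^ (k + 1) * (2 * √(X : ℝ) * Real.log X) ≤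
        (((k : ℝ) + 1) * 2 ^ (k + 1) * (4 * C)) * T := by
      calc ((k : ℝ) + 1) * (2 * L) ^ (k + 1) * (2 * √(X : ℝ) * Real.log X) ≤
          ((k : ℝ) + 1) * (2 * L) ^ (k + 1) * (2 * (C * √N) * (2 * L)) := by gcongr
        _ = (((k : ℝ) + 1) * 2 ^ (k + 1) * (4 * C)) * (√N * L ^ (k + 2)) := by rw [mul_pow]; ring
        _ ≤ (((k : ℝ) + 1) * 2 ^ (k + 1) * (4 * C)) * T := by
            apply mul_le_mul_of_nonneg_left _ (by positivity)
            refine le_trans ?_ hsT
            apply mul_le_mul_of_nonneg_left _ hs0.le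
            exact pow_le_pow_right₀ hL1 (by omega)
    have g6 : |Sg * N - sgL c h z * N| ≤ T := by
      rw [← sub_mul, abs_mul, abs_of_nonneg hN0.le]
      calc |Sg - sgL c h z| * N ≤ 1 / L ^ (U + 2) * N := mul_le_mul_of_nonneg_right g4 hN0.le
        _ = N / L ^ (U + 2) := by ring
        _ ≤ T := hT2
    have g7 : (((k : ℝ) + 1) * 2 ^ (k + 1) * (4 * C)) * T + T + T ≤ (1 / 2) * (N / L ^ U) := by
      rw [← hTL]
      have q1 : ((((k : ℝ) + 1) * 2 ^ (k + 1) * (4 * C)) + 2) ≤ L / 2 := by linarith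
      nlinarith
    have g8 : 0 ≤ (N : ℝ) / L ^ U := by positivity
    rw [abs_le] at e1 hD e4 g6 ⊢
    constructor <;> linarith [e1.1, e1.2, hD.1, hD.2, e4.1, e4.2, g6.1, g6.2]
  -- counting
  obtain ⟨D, hDd⟩ : ∃ D : (Fin k → ℕ) → ℝ, D = fun m => |∑ n ∈ Icc 1 N, ArithmeticFunction.vonMangoldt n *
        (∏ i, ArithmeticFunction.vonMangoldt (c i * n + hv (r i) q (m i)) - ∏ i, lamz z (c i * n + hv (r i) q (m i)))| := ⟨_, rfl⟩
  have hsub : (Fintype.piFinset (fun _ : Fin k => Icc 1 J)).filter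
      (fun m => ¬ (NonDeg c (fun i => hv (r i) q (m i)) ∧ ∃ Sg : ℝ,
        Filter.Tendsto (fun z => sgL c (fun i => hv (r i) q (m i)) z) Filter.atTop (nhds Sg) ∧
        |linCount c (fun i => hv (r i) q (m i)) N - Sg * N| ≤ N / L ^ U)) ⊆
      (Fintype.piFinset (fun _ : Fin k => Icc 1 J)).filter (fun m => ¬ NonDeg c (fun i => hv (r i) q (m i))) ∪
      (Fintype.piFinset (fun _ : Fin k => Icc 1 J)).filter (fun m => (1 / 4) * (N / L ^ U) < D m) := by
    intro m hm
    rw [mem_filter] at hm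
    rw [mem_union, mem_filter, mem_filter]
    by_cases hnd : NonDeg c (fun i => hv (r i) q (m i))
    · right
      refine ⟨hm.1, ?_⟩
      by_contra hcon
      rw [not_lt, hDd] at hcon
      exact hm.2 ⟨hnd, hdet m hm.1 hnd hcon⟩
    · left
      exact ⟨hm.1, hnd⟩
  have hb1 : (((Fintype.piFinset (fun _ : Fin k => Icc 1 J)).filter (fun m => ¬ NonDeg c (fun i => hv (r i) q (m i)))).card : ℝ) ≤
      (J : ℝ) ^ k / L ^ A / 2 := by
    have e1 := few_deg (J := J) c r hc hq1
    have e2 : (((Fintype.piFinset (fun _ : Fin k => Icc 1 J)).filter (fun m => ¬ NonDeg c (fun i => hv (r i) q (m i)))).card : ℝ) ≤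
        ((k : ℝ) + k * k) * (J : ℝ) ^ k / J := by
      rw [le_div_iff₀ hJ0, mul_comm]
      exact e1
    refine e2.trans ?_
    calc ((k : ℝ) + k * k) * (J : ℝ) ^ k / J ≤ ((k : ℝ) + k * k) * (J : ℝ) ^ k / L ^ (A + 4) := by
          exact div_le_div_of_nonneg_left (by positivity) (by positivity) hJbig
      _ = (4 * ((k : ℝ) + k * k) / L) * ((J : ℝ) ^ k / L ^ A) / (4 * L ^ 3) := by
          rw [show A + 4 = A + 1 + 3 by ring, pow_add, pow_succ]
          field_simp
      _ ≤ 1 * ((J : ℝ) ^ k / L ^ A) / 2 := by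
          apply div_le_div₀ (by positivity) _ (by norm_num) _
          · apply mul_le_mul_of_nonneg_right _ (by positivity)
            rw [div_le_one hL0]
            linarith
          · have : 1 ≤ L ^ 3 := one_le_pow₀ hL1
            linarith
      _ = _ := by rw [one_mul]
  have hb2 : (((Fintype.piFinset (fun _ : Fin k => Icc 1 J)).filter (fun m => (1 / 4) * (N / L ^ U) < D m)).card : ℝ) ≤
      (J : ℝ) ^ k / L ^ A / 2 := by
    have e1 : (((Fintype.piFinset (fun _ : Fin k => Icc 1 J)).filter (fun m => (1 / 4) * (N / L ^ U) < D m)).card : ℝ) *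
        ((1 / 4) * (N / L ^ U)) ≤ N * (J : ℝ) ^ k / L ^ (U + A + 4) := by
      refine le_trans ?_ hd
      calc _ = ∑ _m ∈ (Fintype.piFinset (fun _ : Fin k => Icc 1 J)).filter (fun m => (1 / 4) * (N / L ^ U) < D m),
            (1 / 4) * ((N : ℝ) / L ^ U) := by rw [sum_const, nsmul_eq_mul]
        _ ≤ ∑ m ∈ (Fintype.piFinset (fun _ : Fin k => Icc 1 J)).filter (fun m => (1 / 4) * (N / L ^ U) < D m), D m :=
            sum_le_sum fun m hm => (mem_filter.1 hm).2.le
        _ ≤ ∑ m ∈ Fintype.piFinset (fun _ : Fin k => Icc 1 J), D m := by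
            apply sum_le_sum_of_subset_of_nonneg (filter_subset _ _)
            intro m _ _
            rw [hDd]
            exact abs_nonneg _
        _ = _ := by rw [hDd]
    have e2 : (N : ℝ) * (J : ℝ) ^ k / L ^ (U + A + 4) = ((J : ℝ) ^ k / L ^ A / 2 * (8 / L ^ 4)) * ((1 / 4) * (N / L ^ U)) := by
      rw [show U + A + 4 = U + A + 4 by rfl, pow_add, pow_add]
      field_simp
      norm_num
    rw [e2] at e1
    have e3 := le_of_mul_le_mul_right e1 (by positivity)
    refine e3.trans ?_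
    apply mul_le_of_le_one_right (by positivity)
    rw [div_le_one (by positivity)]
    calc (8 : ℝ) ≤ L ^ 1 := by rw [pow_one]; linarith
      _ ≤ L ^ 4 := pow_le_pow_right₀ hL1 (by norm_num)
  have hfin := (card_le_card hsub).trans (card_union_le _ _)
  have hfin' := (Nat.cast_le (α := ℝ)).2 hfin
  rw [Nat.cast_add] at hfin'
  have hb3 := add_le_add hb1 hb2
  rw [add_halves] at hb3
  refine le_trans (le_trans (le_of_eq ?_) hfin') (le_trans (le_of_eq ?_) hb3)
  · congr!
  · congr!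

end Pool.Agent.T2h83.AM
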