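import Pool.Agent.T2h83.AM.Lin3

set_option autoImplicit false

/-! Systems of linear forms: numbers of primes without weights; the last form composite. -/

namespace Pool.Agent.T2h83.AM

open Finset
open Pool.Agent.H373R2.T7 (lamz Vz pz mem_pz Vz_pos Vz_inv_small ev_L' ev_log')

/-- the number of the primes `p ≤ N` for which all `c i p + h i` are primes -/
def cntL {k : ℕ} (c h : Fin k → ℕ) (N : ℕ) : ℕ :=
  ((Icc 1 N).filter (fun p : ℕ => p.Prime ∧ ∀ i, (c i * p + h i).Prime)).card

lemma ev_exp (δ : ℝ) (hδ : 0 < δ) (m : ℕ) : ∃ N₀ : ℕ, ∀ N : ℕ, N₀ ≤ N → Real.exp (-(δ * Real.log N)) * Real.log N ^ m ≤ 1 := by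
  have h1 : Filter.Tendsto (fun x : ℝ => x ^ m * Real.exp (-δ * x)) Filter.atTop (nhds 0) := by
    have h := Real.tendsto_pow_mul_exp_neg_atTop_nhds_zero m
    have h2 : Filter.Tendsto (fun x : ℝ => (1 / δ) ^ m * ((δ * x) ^ m * Real.exp (-(δ * x)))) Filter.atTop (nhds ((1 / δ) ^ m * 0)) :=
      (h.comp (Filter.tendsto_id.const_mul_atTop hδ)).const_mul _
    rw [mul_zero] at h2
    refine h2.congr fun x => ?_
    rw [← mul_assoc, ← mul_pow, ← mul_assoc, one_div, inv_mul_cancel₀ hδ.ne', one_mul, neg_mul]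
  have h2 := h1.comp (Real.tendsto_log_atTop.comp (tendsto_natCast_atTop_atTop (R := ℝ)))
  have h3 := h2.eventually (ge_mem_nhds (show (0 : ℝ) < 1 by norm_num))
  obtain ⟨N₀, h0⟩ := Filter.eventually_atTop.1 h3
  refine ⟨N₀, fun N hN => ?_⟩
  have := h0 N hN
  simp only [Function.comp] at this
  rw [mul_comm, ← neg_mul]
  exact this

/-- weighted and unweighted numbers -/
lemma cnt_lin (k : ℕ) (C : ℕ) (ε : ℝ) (hε : 0 < ε) : ∃ N₀ : ℕ, ∀ N : ℕ, N₀ ≤ N → ∀ c h : Fin k → ℕ, (∀ i, 1 ≤ c i) →
    (∀ i, c i + 2 ≤ C) → (∀ i, h i ≤ 2 * N) →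
    (cntL c h N : ℝ) * Real.log N ^ (k + 1) ≤ (1 + ε) * linCount c h N + N / Real.log N ∧
    linCount c h N ≤ (1 + ε) * ((cntL c h N : ℝ) * Real.log N ^ (k + 1)) := by
  obtain ⟨δ, hδd⟩ : ∃ δ : ℝ, δ = ε / ((k + 1) * (1 + ε)) := ⟨_, rfl⟩
  have hk0 : (0 : ℝ) ≤ k := Nat.cast_nonneg _
  have hδ : 0 < δ := by rw [hδd]; positivity
  have hδ1 : δ < 1 := by
    rw [hδd, div_lt_one (by positivity)]
    nlinarith
  have hδ2 : 1 ≤ (1 + ε) * (1 - δ) ^ (k + 1) := by
    have h1 := one_add_mul_le_pow (a := -δ) (by linarith) (k + 1)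
    have h2 : (1 + ε) * (1 + ((k + 1 : ℕ) : ℝ) * -δ) = 1 := by
      rw [hδd]
      push_cast
      field_simp
      ring
    rw [← sub_eq_add_neg] at h1
    calc (1 : ℝ) = (1 + ε) * (1 + ((k + 1 : ℕ) : ℝ) * -δ) := h2.symm
      _ ≤ _ := mul_le_mul_of_nonneg_left h1 (by linarith)
  obtain ⟨n1, h1⟩ := ev_exp δ hδ (k + 2)
  -- the factor for the lower bound
  obtain ⟨η, hη⟩ : ∃ η : ℝ, η = min 1 (ε / (2 ^ (k + 1))) := ⟨_, rfl⟩
  have hη0 : 0 < η := by rw [hη]; exact lt_min one_pos (by positivity)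
  have hη1 : η ≤ 1 := by rw [hη]; exact min_le_left _ _
  have hη2 : (1 + η) ^ (k + 1) ≤ 1 + ε := by
    have h2 : ∀ j : ℕ, (1 + η) ^ j ≤ 1 + (2 ^ j - 1) * η := by
      intro j
      induction j with
      | zero => simp
      | succ j ih =>
        have h3 : (1 : ℝ) ≤ 2 ^ j := one_le_pow₀ (by norm_num)
        rw [pow_succ, pow_succ]
        nlinarith [mul_nonneg (mul_nonneg hη0.le hη0.le) (sub_nonneg.2 h3), mul_nonneg hη0.le (sub_nonneg.2 hη1)]
    refine (h2 (k + 1)).trans ?_
    have h3 : η ≤ ε / 2 ^ (k + 1) := by rw [hη]; exact min_le_right _ _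
    have h4 : (2 ^ (k + 1) - 1) * η ≤ 2 ^ (k + 1) * η := by nlinarith
    have h5 : 2 ^ (k + 1) * η ≤ ε := by
      rw [le_div_iff₀ (by positivity)] at h3
      linarith
    linarith
  obtain ⟨n2, h2⟩ := ev_L' (Real.log C / η + 1)
  refine ⟨n1 + n2 + 3, fun N hN c h hc hcC hh => ?_⟩
  have hN1 : 1 ≤ N := by omega
  have hN0 : (0 : ℝ) < N := by exact_mod_cast hN1
  have c1 := h1 N (by omega)
  have c2 := h2 N (by omega)
  have hlC : 0 ≤ Real.log C := Real.log_natCast_nonneg C
  have hexp : Real.exp (Real.log N) = N := Real.exp_log hN0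
  obtain ⟨L, hLd⟩ : ∃ L, L = Real.log (N : ℝ) := ⟨_, rfl⟩
  rw [← hLd] at c1 c2 hexp ⊢
  have hCη : 0 ≤ Real.log C / η := by positivity
  have hL1 : 1 ≤ L := by linarith
  have hL0 : 0 < L := by linarith
  have hform : ∀ p ∈ (Icc 1 N).filter (fun p : ℕ => p.Prime ∧ ∀ i, (c i * p + h i).Prime),
      Real.log p * ∏ i, Real.log ((c i * p + h i : ℕ) : ℝ) ≤ (1 + ε) * L ^ (k + 1) := by
    intro p hp
    rw [mem_filter, mem_Icc] at hp
    have hp1 : (1 : ℝ) ≤ p := by exact_mod_cast hp.1.1
    have e1 : Real.log p ≤ (1 + η) * L := by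
      have : Real.log p ≤ L := by rw [hLd]; exact Real.log_le_log (by linarith) (by exact_mod_cast hp.1.2)
      nlinarith
    have e2 : ∀ i ∈ (univ : Finset (Fin k)), Real.log ((c i * p + h i : ℕ) : ℝ) ≤ (1 + η) * L := by
      intro i _
      have e3 : c i * p + h i ≤ C * N := by
        have q1 : c i * p ≤ c i * N := Nat.mul_le_mul_left _ hp.1.2
        have q2 := hh i
        have q3 : (c i + 2) * N ≤ C * N := Nat.mul_le_mul_right _ (hcC i)
        have q4 : (c i + 2) * N = c i * N + 2 * N := by ring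
        omega
      have e4 : 1 ≤ c i * p + h i := by
        have : 1 ≤ c i * p := Nat.mul_pos (by have := hc i; omega) (by omega)
        omega
      have hC0 : (0 : ℝ) < C := by exact_mod_cast (by have := hcC i; omega : 0 < C)
      calc Real.log ((c i * p + h i : ℕ) : ℝ) ≤ Real.log ((C * N : ℕ) : ℝ) :=
            Real.log_le_log (by exact_mod_cast e4) (by exact_mod_cast e3)
        _ = Real.log C + L := by push_cast; rw [Real.log_mul hC0.ne' hN0.ne', hLd]
        _ ≤ (1 + η) * L := by
            have : Real.log C ≤ η * L := by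
              have q1 : Real.log C / η ≤ L := by linarith
              rw [div_le_iff₀ hη0] at q1
              linarith
            linarith
    calc Real.log p * ∏ i, Real.log ((c i * p + h i : ℕ) : ℝ) ≤ ((1 + η) * L) * ∏ _i : Fin k, ((1 + η) * L) := by
          apply mul_le_mul e1 (prod_le_prod (fun i _ => Real.log_natCast_nonneg _) e2)
            (prod_nonneg fun i _ => Real.log_natCast_nonneg _) (by positivity)
      _ = (1 + η) ^ (k + 1) * L ^ (k + 1) := by
          rw [prod_const, card_univ, Fintype.card_fin, ← mul_pow]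
          ring
      _ ≤ _ := mul_le_mul_of_nonneg_right hη2 (by positivity)
  constructor
  · -- small primes
    have e1 : (Icc 1 N).filter (fun p : ℕ => p.Prime ∧ ∀ i, (c i * p + h i).Prime) ⊆
        ((Icc 1 N).filter (fun p : ℕ => Real.log p < (1 - δ) * L)) ∪
        ((Icc 1 N).filter (fun p : ℕ => p.Prime ∧ ∀ i, (c i * p + h i).Prime)).filter (fun p : ℕ => (1 - δ) * L ≤ Real.log p) := by
      intro p hp
      rw [mem_union, mem_filter, mem_filter (s := (Icc 1 N).filter _)]
      by_cases hcase : Real.log p < (1 - δ) * L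
      · exact Or.inl ⟨(mem_filter.1 hp).1, hcase⟩
      · exact Or.inr ⟨hp, not_lt.1 hcase⟩
    have e2 := (card_le_card e1).trans (card_union_le _ _)
    have e3 : ((((Icc 1 N).filter (fun p : ℕ => Real.log p < (1 - δ) * L)).card : ℕ) : ℝ) ≤ N * Real.exp (-(δ * L)) := by
      have q1 : (Icc 1 N).filter (fun p : ℕ => Real.log p < (1 - δ) * L) ⊆ Icc 1 ⌊N * Real.exp (-(δ * L))⌋₊ := by
        intro p hp
        rw [mem_filter, mem_Icc] at hp
        rw [mem_Icc]
        refine ⟨hp.1.1, Nat.le_floor ?_⟩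
        have hp0 : (0 : ℝ) < p := by exact_mod_cast hp.1.1
        rw [← Real.exp_log hp0]
        calc Real.exp (Real.log p) ≤ Real.exp ((1 - δ) * L) := Real.exp_le_exp.2 hp.2.le
          _ = N * Real.exp (-(δ * L)) := by
              rw [← hexp, ← Real.exp_add]
              congr 1
              ring
      have q2 := card_le_card q1
      rw [Nat.card_Icc, Nat.add_sub_cancel] at q2
      exact (by exact_mod_cast q2 : _ ≤ ((⌊(N : ℝ) * Real.exp (-(δ * L))⌋₊ : ℕ) : ℝ)).trans (Nat.floor_le (by positivity))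
    have e4 : ((((((Icc 1 N).filter (fun p : ℕ => p.Prime ∧ ∀ i, (c i * p + h i).Prime)).filter
        (fun p : ℕ => (1 - δ) * L ≤ Real.log p)).card : ℕ) : ℝ)) * ((1 - δ) * L) ^ (k + 1) ≤ linCount c h N := by
      unfold linCount
      calc _ = ∑ _p ∈ ((Icc 1 N).filter (fun p : ℕ => p.Prime ∧ ∀ i, (c i * p + h i).Prime)).filter
            (fun p : ℕ => (1 - δ) * L ≤ Real.log p), ((1 - δ) * L) ^ (k + 1) := by rw [sum_const, nsmul_eq_mul]
        _ ≤ ∑ p ∈ ((Icc 1 N).filter (fun p : ℕ => p.Prime ∧ ∀ i, (c i * p + h i).Prime)).filter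
            (fun p : ℕ => (1 - δ) * L ≤ Real.log p), Real.log p * ∏ i, Real.log ((c i * p + h i : ℕ) : ℝ) := by
            refine sum_le_sum fun p hp => ?_
            rw [mem_filter, mem_filter, mem_Icc] at hp
            have hp0 : (0 : ℝ) < p := by exact_mod_cast hp.1.1.1
            have hd0 : 0 ≤ (1 - δ) * L := mul_nonneg (by linarith) hL0.le
            have q1 : ∀ i ∈ (univ : Finset (Fin k)), (1 - δ) * L ≤ Real.log ((c i * p + h i : ℕ) : ℝ) := by
              intro i _
              refine hp.2.trans (Real.log_le_log hp0 ?_)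
              have : p ≤ c i * p + h i := by
                have : p ≤ c i * p := Nat.le_mul_of_pos_left _ (by have := hc i; omega)
                omega
              exact_mod_cast this
            calc ((1 - δ) * L) ^ (k + 1) = ((1 - δ) * L) * ∏ _i : Fin k, ((1 - δ) * L) := by
                  rw [prod_const, card_univ, Fintype.card_fin]; ring
              _ ≤ _ := mul_le_mul hp.2 (prod_le_prod (fun _ _ => hd0) q1) (prod_nonneg fun _ _ => hd0)
                  (hd0.trans hp.2)
        _ ≤ _ := sum_le_sum_of_subset_of_nonneg (filter_subset _ _) (fun p _ _ =>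
            mul_nonneg (Real.log_natCast_nonneg _) (prod_nonneg fun i _ => Real.log_natCast_nonneg _))
    have e5 : (cntL c h N : ℝ) ≤ N * Real.exp (-(δ * L)) +
        ((((((Icc 1 N).filter (fun p : ℕ => p.Prime ∧ ∀ i, (c i * p + h i).Prime)).filter
        (fun p : ℕ => (1 - δ) * L ≤ Real.log p)).card : ℕ) : ℝ)) := by
      unfold cntL
      refine le_trans (by exact_mod_cast e2) (add_le_add e3 le_rfl)
    obtain ⟨Z, hZ⟩ : ∃ Z : ℝ, Z = ((((((Icc 1 N).filter (fun p : ℕ => p.Prime ∧ ∀ i, (c i * p + h i).Prime)).filter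
        (fun p : ℕ => (1 - δ) * L ≤ Real.log p)).card : ℕ) : ℝ)) := ⟨_, rfl⟩
    rw [← hZ] at e4 e5
    have hZ0 : 0 ≤ Z := by rw [hZ]; positivity
    have e6 : Z * L ^ (k + 1) ≤ (1 + ε) * linCount c h N := by
      calc Z * L ^ (k + 1) = 1 * (Z * L ^ (k + 1)) := (one_mul _).symm
        _ ≤ ((1 + ε) * (1 - δ) ^ (k + 1)) * (Z * L ^ (k + 1)) := mul_le_mul_of_nonneg_right hδ2 (by positivity)
        _ = (1 + ε) * (Z * ((1 - δ) * L) ^ (k + 1)) := by rw [mul_pow]; ring
        _ ≤ _ := mul_le_mul_of_nonneg_left e4 (by linarith)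
    have e7 : N * Real.exp (-(δ * L)) * L ^ (k + 1) ≤ N / L := by
      rw [le_div_iff₀ hL0]
      calc N * Real.exp (-(δ * L)) * L ^ (k + 1) * L = N * (Real.exp (-(δ * L)) * L ^ (k + 2)) := by ring
        _ ≤ N * 1 := mul_le_mul_of_nonneg_left c1 hN0.le
        _ = N := mul_one _
    calc (cntL c h N : ℝ) * L ^ (k + 1) ≤ (N * Real.exp (-(δ * L)) + Z) * L ^ (k + 1) :=
          mul_le_mul_of_nonneg_right e5 (by positivity)
      _ = N * Real.exp (-(δ * L)) * L ^ (k + 1) + Z * L ^ (k + 1) := by ring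
      _ ≤ _ := by linarith
  · unfold linCount cntL
    refine (sum_le_sum hform).trans (le_of_eq ?_)
    rw [sum_const, nsmul_eq_mul]
    ring

/-- the truncated singular series of a subsystem -/
lemma sgL_ratio {k : ℕ} (c h : Fin (k + 1) → ℕ) (hc : ∀ i, 1 ≤ c i) (hn : NonDeg c h) (y : ℕ) (hy1 : 3 * (k + 2) ≤ y)
    (hy2 : ∀ i, c i ≤ y) (z : ℕ) :
    sgL c h z ≤ sgL (fun i : Fin k => c i.castSucc) (fun i : Fin k => h i.castSucc) z *
      ((Vz y)⁻¹ * Real.exp (2 * (badL c h).card / y)) := by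
  classical
  have hy0 : (0 : ℝ) < y := by exact_mod_cast (by omega : 0 < y)
  obtain ⟨c', hc'⟩ : ∃ c', c' = (fun i : Fin k => c i.castSucc) := ⟨_, rfl⟩
  obtain ⟨h', hh'⟩ : ∃ h', h' = (fun i : Fin k => h i.castSucc) := ⟨_, rfl⟩
  rw [← hc', ← hh']
  have hνν : ∀ p, nuL c' h' p ≤ nuL c h p := by
    intro p
    unfold nuL
    apply card_le_card
    intro n hn
    rw [mem_filter] at hn ⊢
    refine ⟨hn.1, ?_⟩
    rcases hn.2 with h1 | ⟨i, hi⟩
    · exact Or.inl h1
    · refine Or.inr ⟨i.castSucc, ?_⟩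
      rw [hc', hh'] at hi
      exact hi
  obtain ⟨g, hg⟩ : ∃ g : ℕ → ℝ, g = fun p => if p ≤ y then (1 - 1 / (p : ℝ))⁻¹ else if p ∈ badL c h then Real.exp (2 / y) else 1 :=
    ⟨_, rfl⟩
  have hinv : ∀ p : ℕ, p.Prime → 1 ≤ (1 - 1 / (p : ℝ))⁻¹ ∧ 0 < 1 - 1 / (p : ℝ) := by
    intro p hp
    have hp2 : (2 : ℝ) ≤ p := by exact_mod_cast hp.two_le
    have hq : 0 < 1 - 1 / (p : ℝ) := by rw [sub_pos, div_lt_one (by linarith)]; linarith
    refine ⟨?_, hq⟩
    rw [one_le_inv₀ hq]
    have : 0 ≤ 1 / (p : ℝ) := by positivity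
    linarith
  -- one prime, trivially
  have htriv : ∀ p : ℕ, p.Prime → FpL c h p ≤ FpL c' h' p * (1 - 1 / (p : ℝ))⁻¹ := by
    intro p hp
    obtain ⟨-, hq⟩ := hinv p hp
    have hp0 : (0 : ℝ) < p := by exact_mod_cast hp.pos
    unfold FpL
    rw [div_mul_eq_mul_div, ← div_eq_mul_inv, div_div, ← pow_succ']
    apply div_le_div_of_nonneg_right _ (by positivity)
    have : (nuL c' h' p : ℝ) ≤ nuL c h p := by exact_mod_cast hνν p
    have := div_le_div_of_nonneg_right this hp0.le
    linarith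
  have hpt : ∀ p ∈ pz z, FpL c h p ≤ FpL c' h' p * g p := by
    intro p hp
    have hpp := (mem_pz.1 hp).2
    have hp2 : (2 : ℝ) ≤ p := by exact_mod_cast hpp.two_le
    have hp0 : (0 : ℝ) < p := by linarith
    obtain ⟨-, hq⟩ := hinv p hpp
    have h0 := FpL_nonneg c' h' p hpp
    rw [hg]
    simp only
    split_ifs with h1 h2
    · exact htriv p hpp
    · refine (htriv p hpp).trans (mul_le_mul_of_nonneg_left ?_ h0)
      have hyp : (y : ℝ) ≤ p := by exact_mod_cast (not_le.1 h1).le
      have e1 : Real.exp (2 / p) ≤ Real.exp (2 / y) := Real.exp_le_exp.2 (div_le_div_of_nonneg_left (by norm_num) hy0 hyp)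
      refine le_trans ?_ e1
      rw [inv_le_iff_one_le_mul₀ hq]
      have e2 := Real.add_one_le_exp (2 / (p : ℝ))
      have e3 : 1 ≤ (2 / (p : ℝ) + 1) * (1 - 1 / p) := by
        have : (2 / (p : ℝ) + 1) * (1 - 1 / p) = 1 + (1 / p) * (1 - 2 / p) := by ring
        rw [this]
        have q1 : 0 ≤ 1 - 2 / (p : ℝ) := by rw [sub_nonneg, div_le_one hp0]; exact hp2
        have q2 : 0 ≤ 1 / (p : ℝ) := by positivity
        nlinarith
      exact e3.trans (mul_le_mul_of_nonneg_right e2 hq.le)
    · rw [mul_one]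
      have hyp : y < p := not_le.1 h1
      have hcp : ∀ i, ¬ p ∣ c i := fun i hd => by
        have := Nat.le_of_dvd (by have := hc i; omega) hd
        have := hy2 i
        omega
      have e1 := nuL_good c h hn p hpp hcp h2
      have e2 := nuL_le c' h' p hpp (fun i hd => hcp i.castSucc (by
        have := hd.1
        rw [hc'] at this
        exact this))
      unfold FpL
      rw [div_le_div_iff₀ (by positivity) (by positivity)]
      have e3 : ((k + 1 + 1 : ℕ) : ℝ) ≤ nuL c h p := by exact_mod_cast e1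
      have e4 : (nuL c' h' p : ℝ) ≤ ((k + 1 : ℕ) : ℝ) := by exact_mod_cast e2
      push_cast at e3 e4
      have e5 : 1 - (nuL c h p : ℝ) / p ≤ (1 - (nuL c' h' p : ℝ) / p) * (1 - 1 / p) := by
        have q1 : (nuL c' h' p : ℝ) / p + 1 / p ≤ (nuL c h p : ℝ) / p := by
          rw [← add_div]
          apply div_le_div_of_nonneg_right _ hp0.le
          linarith
        have q2 : (1 - (nuL c' h' p : ℝ) / p) * (1 - 1 / p) = 1 - ((nuL c' h' p : ℝ) / p + 1 / p) +
            (nuL c' h' p : ℝ) / p * (1 / p) := by ring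
        rw [q2]
        have q3 : 0 ≤ (nuL c' h' p : ℝ) / p * (1 / p) := by positivity
        linarith
      calc (1 - (nuL c h p : ℝ) / p) * (1 - 1 / (p : ℝ)) ^ (k + 1) ≤
          ((1 - (nuL c' h' p : ℝ) / p) * (1 - 1 / p)) * (1 - 1 / (p : ℝ)) ^ (k + 1) :=
            mul_le_mul_of_nonneg_right e5 (by positivity)
        _ = _ := by ring
  have hgpos : ∀ p ∈ pz z, 1 ≤ g p := by
    intro p hp
    rw [hg]
    simp only
    split_ifs
    · exact (hinv p (mem_pz.1 hp).2).1
    · exact Real.one_le_exp (by positivity)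
    · exact le_rfl
  calc sgL c h z ≤ ∏ p ∈ pz z, FpL c' h' p * g p := by
        unfold sgL
        exact prod_le_prod (fun p hp => FpL_nonneg c h p (mem_pz.1 hp).2) hpt
    _ = sgL c' h' z * ∏ p ∈ pz z, g p := by
        unfold sgL
        rw [prod_mul_distrib]
    _ ≤ sgL c' h' z * ((Vz y)⁻¹ * Real.exp (2 * (badL c h).card / y)) := by
        apply mul_le_mul_of_nonneg_left _ (sgL_nonneg c' h' z)
        rw [← prod_filter_mul_prod_filter_not (pz z) (fun p => p ≤ y)]
        apply mul_le_mul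
        · calc ∏ p ∈ (pz z).filter (fun p => p ≤ y), g p = ∏ p ∈ (pz z).filter (fun p => p ≤ y), (1 - 1 / (p : ℝ))⁻¹ := by
                refine prod_congr rfl fun p hp => ?_
                rw [hg]
                simp only
                rw [if_pos (mem_filter.1 hp).2]
            _ ≤ (Vz y)⁻¹ := by
                have hsub : (pz z).filter (fun p => p ≤ y) ⊆ pz y := by
                  intro p hp
                  rw [mem_filter, mem_pz] at hp
                  exact mem_pz.2 ⟨hp.2, hp.1.2⟩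
                rw [prod_inv_distrib]
                apply inv_anti₀ (Vz_pos y)
                unfold Vz
                rw [← prod_sdiff hsub]
                apply mul_le_of_le_one_left
                · exact prod_nonneg fun p hp => (hinv p (mem_pz.1 (hsub hp)).2).2.le
                · apply prod_le_one
                  · intro p hp
                    exact (hinv p (mem_pz.1 (mem_sdiff.1 hp).1).2).2.le
                  · intro p _
                    have : 0 ≤ 1 / (p : ℝ) := by positivity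
                    linarith
        · calc ∏ p ∈ (pz z).filter (fun p => ¬ p ≤ y), g p ≤
                ∏ p ∈ (pz z).filter (fun p => ¬ p ≤ y), (if p ∈ badL c h then Real.exp (2 / y) else 1) := by
                refine prod_le_prod (fun p hp => ?_) fun p hp => ?_
                · exact zero_le_one.trans (hgpos p (mem_filter.1 hp).1)
                · rw [hg]
                  simp only
                  rw [if_neg (mem_filter.1 hp).2]
            _ = ∏ p ∈ ((pz z).filter (fun p => ¬ p ≤ y)).filter (fun p => p ∈ badL c h), Real.exp (2 / y) := by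
                rw [prod_filter (fun p => p ∈ badL c h)]
            _ = Real.exp (2 / y) ^ (((pz z).filter (fun p => ¬ p ≤ y)).filter (fun p => p ∈ badL c h)).card := by
                rw [prod_const]
            _ ≤ Real.exp (2 / y) ^ (badL c h).card := by
                apply pow_le_pow_right₀ (Real.one_le_exp (by positivity))
                exact card_le_card (fun p hp => (mem_filter.1 hp).2)
            _ = _ := by
                rw [← Real.exp_nat_mul]
                congr 1
                ring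
        · exact prod_nonneg fun p hp => zero_le_one.trans (hgpos p (mem_filter.1 hp).1)
        · exact (inv_pos.2 (Vz_pos y)).le

end Pool.Agent.T2h83.AM
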