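import Pool.Agent.T2h83.AM.Hv1
import Pool.Agent.R460.GQ.Conv

set_option autoImplicit false

/-! Project AM (helper83): prime pairs in progressions, the differences in all the residue classes of almost all moduli.
Adapted from `R460/GQ/Main`. -/

namespace Pool.Agent.T2h83.AM

open Finset
open Pool.Agent.R460.GS
open Pool.Agent.R460.GH
open Pool.Agent.R460.GQ
open Pool.Agent.R460.GP (cvd gcd_neg_val)
open Pool.Agent.H373R2.T7 (lamz Vz pz lamI lamzI)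
open Pool.Agent.Y883.T3 (lsh)
open Pool.Agent.Y883.GJ
open Pool.Agent.Y614.GJ.Core (ev_log card_above gcd_above)

theorem gq_A (A B C : ℕ) :
    ∃ K X₀ : ℕ, ∀ X : ℕ, X₀ ≤ X → ∀ M₀ : ℕ, (M₀ : ℝ) * Real.log X ^ K ≤ X →
      ∃ S₀ : Finset ℕ, (S₀.card : ℝ) ≤ M₀ / Real.log X ^ A ∧ ∀ q ∈ Ioc M₀ (2 * M₀), q ∉ S₀ → ∀ b : ℕ,
        ((badH B C X q b).card : ℝ) ≤ (X : ℝ) / (q * Real.log X ^ A) := by
  classical
  obtain ⟨A', hA'⟩ : ∃ A', A' = A + 3 * C + 2 * B + 12 := ⟨_, rfl⟩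
  obtain ⟨A'', hA''⟩ : ∃ A'', A'' = A' + 8 := ⟨_, rfl⟩
  obtain ⟨B', hB'⟩ := err_A A'' (C + 6)
  obtain ⟨E1, hE1⟩ : ∃ E1, E1 = max (B' + 1) (C + 7 + B) := ⟨_, rfl⟩
  obtain ⟨N₁, h1⟩ := hB' (E1 + 1)
  obtain ⟨X₂, h2⟩ := det_one B C E1 (by rw [hE1]; exact le_max_right _ _)
  obtain ⟨X₃, h3⟩ := Filter.eventually_atTop.1 (ev_log B (s := 1) (by norm_num) (2 ^ B' + 100 + 2 ^ (A'' + 11)))
  refine ⟨B + A'' + 12, N₁ + X₂ + X₃ + 3, fun X hX M₀ hM₀ => ?_⟩
  have h2A : (0 : ℝ) < 2 ^ (A'' + 11) := by positivity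
  have h2B : (0 : ℝ) < 2 ^ B' := by positivity
  have hX1 : 1 ≤ X := by omega
  have hX0 : (0 : ℝ) < X := by exact_mod_cast hX1
  have hX1r : (1 : ℝ) ≤ X := by exact_mod_cast hX1
  obtain ⟨hLb, hLp⟩ := h3 X (by omega)
  have c2 := h2 X (by omega)
  obtain ⟨N, hN⟩ : ∃ N, N = 2 * X := ⟨_, rfl⟩
  have hXN : X ≤ N := by omega
  have hNr : (N : ℝ) = 2 * X := by rw [hN]; push_cast; ring
  have c1 := h1 N (by omega)
  have hL2 : Real.log X ≤ Real.log N := Real.log_le_log hX0 (by exact_mod_cast hXN)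
  have hL3 : Real.log N ≤ 2 * Real.log X := by
    rw [hNr, Real.log_mul (by norm_num) hX0.ne']
    have := Real.log_two_lt_d9
    have h5 : (0 : ℝ) < 2 ^ B' := by positivity
    linarith
  have hLAsq : ∑ n ∈ Icc 1 N, ‖LA n‖ ^ 2 ≤ N * Real.log N ^ 8 :=
    bd_sq (bd_LA (by linarith)) (by linarith)
  obtain ⟨L, hLd⟩ : ∃ L, L = Real.log (X : ℝ) := ⟨_, rfl⟩
  obtain ⟨L', hLd'⟩ : ∃ L', L' = Real.log (N : ℝ) := ⟨_, rfl⟩
  rw [← hLd] at hLb hLp c2 hM₀ hL2 hL3 ⊢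
  rw [← hLd'] at c1 hL2 hL3 hLAsq
  have hL100 : 100 ≤ L := by linarith
  have hL0 : 0 < L := by linarith
  have hL1 : 1 ≤ L := by linarith
  have hL0' : 0 < L' := by linarith
  -- the parameter `z`
  obtain ⟨z, hz⟩ : ∃ z, z = ⌈L ^ E1⌉₊ := ⟨_, rfl⟩
  have hzlo : L ^ E1 ≤ z := by rw [hz]; exact Nat.le_ceil _
  have hL1B : 1 ≤ L ^ E1 := one_le_pow₀ hL1
  have hzhi : (z : ℝ) ≤ L ^ (E1 + 1) := by
    have := Nat.ceil_lt_add_one (show 0 ≤ L ^ E1 by positivity)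
    rw [← hz] at this
    calc (z : ℝ) ≤ L ^ E1 + 1 := this.le
      _ ≤ L ^ E1 + L ^ E1 := by linarith
      _ = 2 * L ^ E1 := by ring
      _ ≤ L * L ^ E1 := mul_le_mul_of_nonneg_right (by linarith) (by positivity)
      _ = L ^ (E1 + 1) := by ring
  have hzB : L' ^ B' ≤ z := by
    calc L' ^ B' ≤ (2 * L) ^ B' := pow_le_pow_left₀ hL0'.le hL3 _
      _ = 2 ^ B' * L ^ B' := mul_pow _ _ _
      _ ≤ L * L ^ B' := mul_le_mul_of_nonneg_right (by linarith) (by positivity)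
      _ = L ^ (B' + 1) := by ring
      _ ≤ L ^ E1 := pow_le_pow_right₀ hL1 (by rw [hE1]; exact le_max_left _ _)
      _ ≤ z := hzlo
  obtain ⟨r, hPar, hsum, hms⟩ := c1 z hzB (hzhi.trans (pow_le_pow_left₀ hL0.le hL2 _))
  -- the bad moduli
  obtain ⟨S₀, hS₀⟩ : ∃ S₀, S₀ = (Icc 1 ⌊L ^ B⌋₊).biUnion (fun q₀ => (Ioc M₀ (2 * M₀)).filter
      (fun q => q₀ * q ∈ badq N (FF z r) (q₀ * M₀) ((N : ℝ) ^ 2 / L' ^ A''))) := ⟨_, rfl⟩
  have hfl : ((⌊L ^ B⌋₊ : ℕ) : ℝ) ≤ L ^ B := Nat.floor_le (by positivity)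
  have hS₀c : (S₀.card : ℝ) ≤ M₀ / L ^ A := by
    have f1 : ∀ q₀ ∈ Icc 1 ⌊L ^ B⌋₊, (((Ioc M₀ (2 * M₀)).filter
        (fun q => q₀ * q ∈ badq N (FF z r) (q₀ * M₀) ((N : ℝ) ^ 2 / L' ^ A''))).card : ℝ) ≤ L ^ B * M₀ / L ^ A'' := by
      intro q₀ hq₀
      rw [mem_Icc] at hq₀
      have hq₀r : (q₀ : ℝ) ≤ L ^ B := le_trans (by exact_mod_cast hq₀.2) hfl
      have f2 : ((Ioc M₀ (2 * M₀)).filter
          (fun q => q₀ * q ∈ badq N (FF z r) (q₀ * M₀) ((N : ℝ) ^ 2 / L' ^ A''))).card ≤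
          (badq N (FF z r) (q₀ * M₀) ((N : ℝ) ^ 2 / L' ^ A'')).card := by
        apply card_le_card_of_injOn (fun q => q₀ * q)
        · intro q hq
          rw [mem_coe, mem_filter] at hq
          exact hq.2
        · intro q _ q' _ he
          exact Nat.eq_of_mul_eq_mul_left (by omega) he
      have f3 := hms (q₀ * M₀) (by
        push_cast
        calc (q₀ : ℝ) * M₀ * L' ^ (A'' + 11) ≤ L ^ B * M₀ * (2 * L) ^ (A'' + 11) := by gcongr
          _ = M₀ * (L ^ B * (2 ^ (A'' + 11) * L ^ (A'' + 11))) := by rw [mul_pow]; ring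
          _ ≤ M₀ * (L ^ B * (L * L ^ (A'' + 11))) := by gcongr; linarith
          _ = M₀ * L ^ (B + A'' + 12) := by ring
          _ ≤ X := hM₀
          _ ≤ N := by exact_mod_cast hXN)
      calc _ ≤ ((badq N (FF z r) (q₀ * M₀) ((N : ℝ) ^ 2 / L' ^ A'')).card : ℝ) := by exact_mod_cast f2
        _ ≤ ((q₀ * M₀ : ℕ) : ℝ) / L' ^ A'' := f3
        _ ≤ L ^ B * M₀ / L ^ A'' := by
            push_cast
            gcongr
    calc (S₀.card : ℝ) ≤ ∑ q₀ ∈ Icc 1 ⌊L ^ B⌋₊, (((Ioc M₀ (2 * M₀)).filter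
          (fun q => q₀ * q ∈ badq N (FF z r) (q₀ * M₀) ((N : ℝ) ^ 2 / L' ^ A''))).card : ℝ) := by
          rw [hS₀]
          exact_mod_cast card_biUnion_le
      _ ≤ ∑ _q₀ ∈ Icc 1 ⌊L ^ B⌋₊, L ^ B * M₀ / L ^ A'' := sum_le_sum f1
      _ = (⌊L ^ B⌋₊ : ℝ) * (L ^ B * M₀ / L ^ A'') := by rw [sum_const, Nat.card_Icc, nsmul_eq_mul, Nat.add_sub_cancel]
      _ ≤ L ^ B * (L ^ B * M₀ / L ^ A'') := by gcongr
      _ = M₀ * (L ^ (2 * B) / L ^ A'') := by ring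
      _ ≤ M₀ * (1 / L ^ A) := by
          apply mul_le_mul_of_nonneg_left _ (Nat.cast_nonneg _)
          rw [div_le_div_iff₀ (by positivity) (by positivity), one_mul, ← pow_add]
          exact pow_le_pow_right₀ hL1 (by omega)
      _ = M₀ / L ^ A := by ring
  refine ⟨S₀, hS₀c, fun q hqM hqS b => ?_⟩
  have hq1 : 1 ≤ q := by rw [mem_Ioc] at hqM; omega
  have hq0 : (0 : ℝ) < q := by exact_mod_cast hq1
  have : NeZero q := ⟨by omega⟩
  have hgoodq : ∀ q₀ : ℕ, 1 ≤ q₀ → (q₀ : ℝ) ≤ L ^ B →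
      ∀ β : ℝ, ∑ c ∈ range (q₀ * q), ‖sm N (FF z r) (β + c / ((q₀ * q : ℕ) : ℝ))‖ ^ 2 ≤ (N : ℝ) ^ 2 / L' ^ A'' := by
    intro q₀ hq₀ hq₀L β
    by_contra hcon
    push Not at hcon
    apply hqS
    rw [hS₀, mem_biUnion]
    refine ⟨q₀, mem_Icc.2 ⟨hq₀, Nat.le_floor hq₀L⟩, ?_⟩
    rw [mem_filter]
    refine ⟨hqM, ?_⟩
    unfold badq
    rw [mem_filter]
    refine ⟨?_, β, hcon⟩
    rw [mem_Ioc] at hqM ⊢
    constructor
    · exact Nat.mul_lt_mul_of_pos_left hqM.1 hq₀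
    · calc q₀ * q ≤ q₀ * (2 * M₀) := Nat.mul_le_mul_left _ hqM.2
        _ = 2 * (q₀ * M₀) := by ring
  -- the grid
  obtain ⟨Tg, hTg⟩ : ∃ Tg, Tg = ⌈L ^ (C + 4)⌉₊ := ⟨_, rfl⟩
  have hT1 : L ^ (C + 4) ≤ Tg := by rw [hTg]; exact Nat.le_ceil _
  have hLV : 1 ≤ L ^ (C + 4) := one_le_pow₀ hL1
  have hT2 : (Tg : ℝ) + 1 ≤ L ^ (C + 5) := by
    have h4 : (Tg : ℝ) < L ^ (C + 4) + 1 := by
      rw [hTg]
      exact Nat.ceil_lt_add_one (by positivity)
    calc (Tg : ℝ) + 1 ≤ 3 * L ^ (C + 4) := by linarith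
      _ ≤ L * L ^ (C + 4) := mul_le_mul_of_nonneg_right (by linarith) (by positivity)
      _ = L ^ (C + 5) := by ring
  obtain ⟨s, hs⟩ : ∃ s, s = X / Tg + 1 := ⟨_, rfl⟩
  obtain ⟨t, ht⟩ : ∃ t : ℝ, t = X / (2 * L ^ (C + 3)) := ⟨_, rfl⟩
  have ht0 : 0 < t := by rw [ht]; positivity
  -- the error from the truncated model
  have htr : L' * ∑ c ∈ Icc 1 N, |lamz z c - lsh z r c| ≤ t := by
    calc L' * ∑ c ∈ Icc 1 N, |lamz z c - lsh z r c| ≤ L' * (N / L' ^ (C + 6)) :=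
          mul_le_mul_of_nonneg_left hsum hL0'.le
      _ = N / L' ^ (C + 5) := by rw [pow_succ L' (C + 5)]; field_simp
      _ ≤ N / L ^ (C + 5) := by
          apply div_le_div_of_nonneg_left (by positivity) (by positivity)
          exact pow_le_pow_left₀ hL0.le hL2 _
      _ ≤ t := by
          rw [ht, hNr, div_le_div_iff₀ (by positivity) (by positivity)]
          have e : L ^ (C + 5) = L ^ (C + 3) * L ^ 2 := by ring
          rw [e]
          have h5 : (4 : ℝ) ≤ L ^ 2 := by nlinarith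
          have h6 : 0 ≤ (X : ℝ) * L ^ (C + 3) := by positivity
          calc 2 * (X : ℝ) * (2 * L ^ (C + 3)) = (X * L ^ (C + 3)) * 4 := by ring
            _ ≤ (X * L ^ (C + 3)) * L ^ 2 := mul_le_mul_of_nonneg_left h5 h6
            _ = _ := by ring
  -- one modulus and one class
  obtain ⟨W, hW⟩ : ∃ W : ℝ, W = 32 * X * L ^ (3 * C + 11) / (q * L ^ A') := ⟨_, rfl⟩
  have hW0 : 0 ≤ W := by rw [hW]; positivity
  have key : ∀ q₀ a₀ : ℕ, 1 ≤ q₀ → (q₀ : ℝ) ≤ L ^ B → a₀ < q₀ →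
      (((badH B C X q b).filter (fun h => ¬ Good2 C X h q₀ a₀)).card : ℝ) ≤ W := by
    intro q₀ a₀ hq01 hq0B ha₀
    have : NeZero q₀ := ⟨by omega⟩
    have hQ : NeZero (q₀ * q) := ⟨Nat.mul_ne_zero (by omega) (by omega)⟩
    obtain ⟨H, hH⟩ : ∃ H, H = (badH B C X q b).filter (fun h => ¬ Good2 C X h q₀ a₀) := ⟨_, rfl⟩
    rw [← hH]
    have hq0r : (0 : ℝ) < q₀ := by exact_mod_cast hq01
    have hmem : ∀ h ∈ H, 1 ≤ h ∧ h ≤ X ∧ (h : ℝ) ≤ X / L ^ (C + 4) ∧ 2 ∣ h ∧ h % q = b % q ∧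
        Nat.Coprime a₀ q₀ ∧ Nat.Coprime (a₀ + h) q₀ ∧ ¬ Good2 C X h q₀ a₀ := by
      intro h hh
      rw [hH, mem_filter] at hh
      have h4 := hh.1
      unfold badH at h4
      rw [mem_filter, mem_Icc, ← hLd] at h4
      have h5 := hh.2
      have h6 : Nat.Coprime a₀ q₀ ∧ Nat.Coprime (a₀ + h) q₀ := by
        by_contra hc
        apply h5
        intro k1 k2
        exact absurd ⟨k1, k2⟩ hc
      exact ⟨h4.1.1, h4.1.2, h4.2.1, h4.2.2.1, h4.2.2.2.1, h6.1, h6.2, h5⟩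
    have hbig : ∀ h ∈ H, ∃ i ∈ range (Tg + 1),
        t ≤ ‖cvd (res q₀ a₀ LA) (FF z r) (min (i * s) X) N (-(h : ℤ))‖ := by
      intro h hh
      obtain ⟨m1, m2, m3, m4, m5, m6, m7, m8⟩ := hmem h hh
      by_contra hcon
      push Not at hcon
      apply m8
      intro _ _ x hx2 hxX
      rw [← hLd]
      refine c2 h m3 z hzlo hzhi Tg hT1 (by linarith) q₀ a₀ hq01 hq0B m6 m7 m4 (by omega) ha₀ ?_ x hx2 hxX
      intro i hi
      have k1 := near (N := N) (h := h) (y := min (i * (X / Tg + 1)) X) z r q₀ a₀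
        (by have := min_le_right (i * (X / Tg + 1)) X; omega)
      rw [← hLd'] at k1
      have k2 := hcon i hi
      rw [hs] at k2
      have k3 : (X : ℝ) / L ^ (C + 3) = 2 * t := by rw [ht]; field_simp
      rw [k3]
      linarith
    -- the classes modulo `q₀ q`
    obtain ⟨S, hS⟩ : ∃ S, S = univ.filter (fun c : ZMod (q₀ * q) => ((c.val : ℕ) : ZMod q) = (b : ZMod q)) :=
      ⟨_, rfl⟩
    have hSc : (S.card : ℝ) ≤ q₀ := by
      rw [hS]
      exact_mod_cast card_above q₀ q (b : ZMod q)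
    have hmap : ∀ h ∈ H, (h : ZMod (q₀ * q)) ∈ S := by
      intro h hh
      obtain ⟨m1, m2, m3, m4, m5, m6, m7, m8⟩ := hmem h hh
      rw [hS, mem_filter]
      refine ⟨mem_univ _, ?_⟩
      rw [ZMod.val_natCast, ZMod.natCast_eq_natCast_iff']
      rw [Nat.mod_mod_of_dvd _ (dvd_mul_left q q₀)]
      exact m5
    have hcard : H.card = ∑ c ∈ S, (H.filter (fun h : ℕ => (h : ZMod (q₀ * q)) = c)).card :=
      card_eq_sum_card_fiberwise hmap
    have hcl : ∀ c ∈ S, ((H.filter (fun h : ℕ => (h : ZMod (q₀ * q)) = c)).card : ℝ) ≤ W / q₀ := by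
      intro c hc
      rcases (H.filter (fun h : ℕ => (h : ZMod (q₀ * q)) = c)).eq_empty_or_nonempty with he | ⟨h₀, hh₀⟩
      · rw [he, card_empty, Nat.cast_zero]
        positivity
      rw [mem_filter] at hh₀
      obtain ⟨m1, m2, m3, m4, m5, m6, m7, m8⟩ := hmem h₀ hh₀.1
      have hres : ∑ n ∈ Icc 1 N, ‖res q₀ a₀ LA n‖ ^ 2 ≤ N * L' ^ 8 :=
        (sum_le_sum fun n _ => pow_le_pow_left₀ (norm_nonneg _) (norm_res_le _ _ _ _) 2).trans hLAsq
      have hms' : ∀ y : ℕ, y ≤ N → ∑ n ∈ (Icc (-(N : ℤ)) N).filter (fun n : ℤ => (n : ZMod (q₀ * q)) = -c),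
          ‖cvd (res q₀ a₀ LA) (FF z r) y N n‖ ^ 2 ≤ (N : ℝ) ^ 3 / (((q₀ * q : ℕ) : ℝ) * L' ^ A') := by
        intro y hy
        refine (cls_sqd (res q₀ a₀ LA) (FF z r) (by omega) hy (-c) _ (hgoodq q₀ hq01 hq0B)).trans ?_
        have hqq : (0 : ℝ) < ((q₀ * q : ℕ) : ℝ) := by exact_mod_cast Nat.pos_of_ne_zero (NeZero.ne (q₀ * q))
        calc (N : ℝ) ^ 2 / L' ^ A'' / ((q₀ * q : ℕ) : ℝ) * ∑ n ∈ Icc 1 N, ‖res q₀ a₀ LA n‖ ^ 2
            ≤ (N : ℝ) ^ 2 / L' ^ A'' / ((q₀ * q : ℕ) : ℝ) * (N * L' ^ 8) := by gcongr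
          _ = (N : ℝ) ^ 3 / (((q₀ * q : ℕ) : ℝ) * L' ^ A') := by
              rw [hA'', pow_add L' A' 8]
              field_simp
      have hone := one_class (N := N) (X := X) (Q := q₀ * q) (q₀ := q₀) (a₀ := a₀) (Tg := Tg) (s := s) (z := z)
        (r := r) hXN c (H.filter (fun h : ℕ => (h : ZMod (q₀ * q)) = c))
        (R := (N : ℝ) ^ 3 / (((q₀ * q : ℕ) : ℝ) * L' ^ A')) (t := t)
        (by
          intro h hh
          rw [mem_filter] at hh
          exact ⟨(hmem h hh.1).2.1, hh.2⟩)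
        hms'
        (fun h hh => hbig h (mem_filter.1 hh).1) ht0
      refine hone.trans ?_
      have e1 : (N : ℝ) ^ 3 / (((q₀ * q : ℕ) : ℝ) * L' ^ A') ≤ 8 * X ^ 3 / (q₀ * q * L ^ A') := by
        rw [hNr, Nat.cast_mul]
        have : (2 * (X : ℝ)) ^ 3 = 8 * X ^ 3 := by ring
        rw [this]
        apply div_le_div_of_nonneg_left (by positivity) (by positivity)
        apply mul_le_mul_of_nonneg_left _ (by positivity)
        exact pow_le_pow_left₀ hL0.le hL2 _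
      calc ((Tg : ℝ) + 1) * ((N : ℝ) ^ 3 / (((q₀ * q : ℕ) : ℝ) * L' ^ A')) / t ^ 2
          ≤ L ^ (C + 5) * (8 * X ^ 3 / (q₀ * q * L ^ A')) / t ^ 2 := by gcongr
        _ = W / q₀ := by
            have e3 : L ^ (C + 5) = L ^ (C + 3) * L ^ 2 := by ring
            have e4 : L ^ (3 * C + 11) = (L ^ (C + 3)) ^ 3 * L ^ 2 := by
              rw [← pow_mul, ← pow_add]
              congr 1
              ring
            have hP0 : L ^ (C + 3) ≠ 0 := by positivity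
            have hA0 : L ^ A' ≠ 0 := by positivity
            rw [hW, ht, e3, e4]
            clear hms c1 c2 h1 h2 hB' hbig hone hms'
            generalize L ^ (C + 3) = P at hP0 ⊢
            generalize L ^ A' = P' at hA0 ⊢
            field_simp
            try ring
    calc (H.card : ℝ) = ∑ c ∈ S, ((H.filter (fun h : ℕ => (h : ZMod (q₀ * q)) = c)).card : ℝ) := by
          rw [hcard]
          push_cast
          rfl
      _ ≤ ∑ _c ∈ S, W / q₀ := sum_le_sum hcl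
      _ = S.card * (W / q₀) := by rw [sum_const, nsmul_eq_mul]
      _ ≤ q₀ * (W / q₀) := by gcongr
      _ = W := by field_simp
  -- all moduli and classes
  obtain ⟨M, hM⟩ : ∃ M, M = ⌊L ^ B⌋₊ := ⟨_, rfl⟩
  have hMr : (M : ℝ) ≤ L ^ B := by rw [hM]; exact Nat.floor_le (by positivity)
  have hsub : badH B C X q b ⊆ (Icc 1 M ×ˢ range M).biUnion
      (fun p => (badH B C X q b).filter (fun h => p.2 < p.1 ∧ ¬ Good2 C X h p.1 p.2)) := by
    intro h hh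
    have h4 := hh
    unfold badH at h4
    rw [mem_filter, ← hLd] at h4
    have h5 := h4.2.2.2.2
    have h6 : ∃ q₀ a₀ : ℕ, 1 ≤ q₀ ∧ (q₀ : ℝ) ≤ L ^ B ∧ a₀ < q₀ ∧ ¬ Good2 C X h q₀ a₀ := by
      by_contra hc
      push Not at hc
      apply h5
      apply good1_of
      rw [← hLd]
      exact fun q₀ a₀ k1 k2 k3 => hc q₀ a₀ k1 k2 k3
    obtain ⟨q₀, a₀, k1, k2, k3, k4⟩ := h6
    rw [mem_biUnion]
    have k5 : q₀ ≤ M := by rw [hM]; exact Nat.le_floor k2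
    refine ⟨(q₀, a₀), ?_, ?_⟩
    · rw [mem_product, mem_Icc, mem_range]
      exact ⟨⟨k1, k5⟩, by omega⟩
    · rw [mem_filter]
      exact ⟨hh, k3, k4⟩
  have htot : ((badH B C X q b).card : ℝ) ≤ L ^ B * L ^ B * W := by
    calc ((badH B C X q b).card : ℝ) ≤ (((Icc 1 M ×ˢ range M).biUnion
          (fun p => (badH B C X q b).filter (fun h => p.2 < p.1 ∧ ¬ Good2 C X h p.1 p.2))).card : ℝ) := by
          exact_mod_cast card_le_card hsub
      _ ≤ ∑ p ∈ Icc 1 M ×ˢ range M, (((badH B C X q b).filter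
          (fun h => p.2 < p.1 ∧ ¬ Good2 C X h p.1 p.2)).card : ℝ) := by
          exact_mod_cast card_biUnion_le
      _ ≤ ∑ _p ∈ Icc 1 M ×ˢ range M, W := by
          refine sum_le_sum fun p hp => ?_
          rw [mem_product, mem_Icc] at hp
          by_cases hlt : p.2 < p.1
          · refine le_trans ?_ (key p.1 p.2 hp.1.1 (le_trans (by exact_mod_cast hp.1.2) hMr) hlt)
            exact_mod_cast card_le_card (by
              intro h hh
              rw [mem_filter] at hh ⊢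
              exact ⟨hh.1, hh.2.2⟩)
          · have : (badH B C X q b).filter (fun h => p.2 < p.1 ∧ ¬ Good2 C X h p.1 p.2) = ∅ := by
              rw [filter_eq_empty_iff]
              intro h _ hc
              exact hlt hc.1
            rw [this, card_empty, Nat.cast_zero]
            exact hW0
      _ = (M : ℝ) * M * W := by
          rw [sum_const, card_product, Nat.card_Icc, card_range, nsmul_eq_mul, Nat.add_sub_cancel]
          push_cast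
          ring
      _ ≤ L ^ B * L ^ B * W := by gcongr
  refine htot.trans ?_
  rw [hW, hA']
  have e2 : L ^ B * L ^ B * (32 * X * L ^ (3 * C + 11) / (q * L ^ (A + 3 * C + 2 * B + 12))) =
      X / (q * L ^ A) * (32 / L) := by
    have e3 : L ^ (A + 3 * C + 2 * B + 12) = L ^ A * L ^ (3 * C + 11) * L ^ B * L ^ B * L := by ring
    rw [e3]
    have hA0 : L ^ A ≠ 0 := by positivity
    have hB0 : L ^ B ≠ 0 := by positivity
    have hC0 : L ^ (3 * C + 11) ≠ 0 := by positivity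
    generalize L ^ A = P1 at hA0 ⊢
    generalize L ^ B = P2 at hB0 ⊢
    generalize L ^ (3 * C + 11) = P3 at hC0 ⊢
    field_simp
  rw [e2]
  have h7 : 32 / L ≤ 1 := by
    rw [div_le_one hL0]
    linarith
  calc (X : ℝ) / (q * L ^ A) * (32 / L) ≤ X / (q * L ^ A) * 1 := by gcongr
    _ = _ := mul_one _

end Pool.Agent.T2h83.AM
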